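import Pool.Agent.H82.BS.Step

/-! The chain of steps from the top to the bottom, and the lower bound for the weighted cost. -/

set_option autoImplicit false

namespace Pool.Agent.H82.BS

open Pool.Agent.H320R2.PD Pool.Agent.H499R2.ND Pool.Agent.H499R2.CO Pool.Agent.Y965.SI Finset

/-- the cumulated weighted cost -/
noncomputable def HH (c : ℤ → ℝ) (x : ℝ) : ℝ := AS (wt c) 1 (Real.exp x)

theorem HH_mono {c : ℤ → ℝ} (hc : ∀ m, 0 ≤ c m) {x y : ℝ} (hx : 0 ≤ x) (h : x ≤ y) : HH c x ≤ HH c y := by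
  unfold HH
  exact AS_ext (wt_nonneg hc) le_rfl (Real.one_le_exp hx) (Real.exp_le_exp.2 h)

theorem HH_sub (c : ℤ → ℝ) {x y : ℝ} (hx : 0 ≤ x) (h : x ≤ y) :
    AS (wt c) (Real.exp x) (Real.exp y) = HH c y - HH c x := by
  unfold HH
  have := AS_add (wt c) (Real.one_le_exp hx) (Real.exp_le_exp.2 h)
  linarith

/-- the potential -/
noncomputable def Phi (c : ℤ → ℝ) (q L : ℝ) : ℝ := ∑ i ∈ range 6, HH c (q ^ i * L)

theorem Phi_step {c : ℤ → ℝ} (hc : ∀ m, 0 ≤ c m) {q L L' : ℝ} (hq : 0 < q) (hL' : 0 ≤ L') (h : L' ≤ q * L) :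
    HH c L - HH c (q ^ 6 * L) ≤ Phi c q L - Phi c q L' := by
  have h1 : Phi c q L' ≤ ∑ i ∈ range 6, HH c (q ^ (i + 1) * L) := by
    unfold Phi
    apply sum_le_sum
    intro i _
    apply HH_mono hc (by positivity)
    have := mul_le_mul_of_nonneg_left h (show 0 ≤ q ^ i by positivity)
    rw [pow_succ]
    linarith
  have h2 : Phi c q L + HH c (q ^ 6 * L) = ∑ i ∈ range 6, HH c (q ^ (i + 1) * L) + HH c L := by
    unfold Phi
    rw [← sum_range_succ (fun i => HH c (q ^ i * L)), sum_range_succ' (fun i => HH c (q ^ i * L)), pow_zero, one_mul]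
  linarith

theorem q6 {θ : ℝ} (hθ : 0 < θ) (hθ1 : θ ≤ 1) : (1 - θ / 160) ^ 6 ≤ 1 - 0.035 * θ := by
  have h1 : (1 - θ / 160) ^ 2 ≤ 1 - θ / 80 + θ / 25600 := by nlinarith
  have h2 : (0 : ℝ) ≤ (1 - θ / 160) ^ 2 := sq_nonneg _
  have h3 : (1 - θ / 160) ^ 6 = ((1 - θ / 160) ^ 2) ^ 3 := by ring
  have h4 : ((1 - θ / 160) ^ 2) ^ 3 ≤ (1 - θ / 80 + θ / 25600) ^ 3 := pow_le_pow_left₀ h2 h1 3
  have h5 : (1 - θ / 80 + θ / 25600) ^ 3 ≤ 1 - 0.035 * θ := by
    set t := θ / 80 - θ / 25600 with ht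
    have ht0 : 0 ≤ t := by rw [ht]; linarith
    have ht1 : t ≤ 1 / 80 := by rw [ht]; linarith
    have e : 1 - θ / 80 + θ / 25600 = 1 - t := by rw [ht]; ring
    rw [e]
    have h6 : (1 - t) ^ 3 = 1 - 3 * t + 3 * t ^ 2 - t ^ 3 := by ring
    have h7 : t ^ 2 ≤ t * (1 / 80) := by nlinarith
    have h8 : 0 ≤ t ^ 3 := by positivity
    have h9 : t = θ * (319 / 25600) := by rw [ht]; ring
    rw [h6]
    nlinarith
  linarith

theorem chain {d : ℤ} (hd : Odd d) (hd3 : IsCoprime d 3) (hdd : d * d = 1) {C₀ θ : ℝ} (hC₀ : 0 ≤ C₀) (hθ : 0 < θ)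
    (hθ1 : θ ≤ 1 / 4) :
    ∃ (B B2 L1 : ℝ), 0 < B ∧ 0 < B2 ∧ 1 ≤ L1 ∧ ∀ f c : ℤ → ℝ, InvF d f → LC f c C₀ → ∀ ℓ : ℝ, L1 ≤ ℓ → ∀ I : ℕ,
      1 ≤ I → (I : ℝ) ≤ Real.exp ((1 - θ) * ℓ) → ∀ A : ℝ, 0 < A → ℓ ≤ Real.log A → ∃ A' : ℝ, 0 < A' ∧
        ℓ ≤ Real.log A' ∧ Real.log A' ≤ (1 + θ) * ℓ ∧
        Dist f I A A' ≤ B2 / rt4 ℓ + 6 * B * AS (wt c) (Real.exp (ℓ / 2)) A := by
  obtain ⟨B, L1, hB, hL1, hst⟩ := step hd hd3 hdd hC₀ hθ (by linarith)
  set q : ℝ := 1 - θ / 160 with hq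
  have hq0 : 0 < q := by rw [hq]; linarith
  have hq1 : q < 1 := by rw [hq]; linarith
  have hrq0 : 0 < rt4 q := rt4_pos hq0
  have hrq1 : rt4 q < 1 := by
    have h1 := rt4_pow hq0.le
    by_contra hcon
    push Not at hcon
    have : 1 ≤ rt4 q ^ 4 := one_le_pow₀ hcon
    linarith
  have hinv : 1 < 1 / rt4 q := by rw [lt_div_iff₀ hrq0]; linarith
  set B2 : ℝ := B / (1 / rt4 q - 1) with hB2
  have hB20 : 0 < B2 := div_pos hB (by linarith)
  refine ⟨B, B2, max L1 (160 / θ), hB, hB20, hL1.trans (le_max_left _ _), ?_⟩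
  intro f c hf hc ℓ hℓ I hI hIe
  have hℓ1 : L1 ≤ ℓ := (le_max_left _ _).trans hℓ
  have hℓ2 : 160 / θ ≤ ℓ := (le_max_right _ _).trans hℓ
  have hℓpos : 0 < ℓ := by linarith
  have hθℓ : 160 ≤ θ * ℓ := by
    rw [div_le_iff₀ hθ] at hℓ2; linarith
  have hI0 : (0 : ℝ) < I := by exact_mod_cast hI
  have hlogI : Real.log I ≤ (1 - θ) * ℓ := by
    have := Real.log_le_log hI0 hIe
    rwa [Real.log_exp] at this
  have hc0 := hc.1
  have key : ∀ n : ℕ, ∀ A : ℝ, 0 < A → ℓ ≤ Real.log A → Real.log A ≤ n → ∃ A' : ℝ, 0 < A' ∧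
      ℓ ≤ Real.log A' ∧ Real.log A' ≤ (1 + θ) * ℓ ∧ Real.log A' ≤ Real.log A ∧
      Dist f I A A' ≤ B * (Phi c q (Real.log A) - Phi c q (Real.log A'))
        + B2 * (1 / rt4 (Real.log A') - 1 / rt4 (Real.log A)) := by
    intro n
    induction n with
    | zero =>
      intro A hA h1 h2
      exfalso
      push_cast at h2
      linarith
    | succ n ih =>
      intro A hA h1 h2
      by_cases h3 : Real.log A ≤ (1 + θ) * ℓ
      · refine ⟨A, hA, h1, h3, le_rfl, ?_⟩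
        rw [Dist_self]
        simp
      push Not at h3
      set Λ := Real.log A with hΛ
      have hΛpos : 0 < Λ := by linarith
      obtain ⟨A1, hA1, g1, g2, g3⟩ := hst f c hf hc I hI A hA (hℓ1.trans h1) (by
        rw [Real.log_div hA.ne' hI0.ne', ← hΛ]
        have : (1 - θ) * ℓ ≤ (1 - θ) * Λ := mul_le_mul_of_nonneg_left h1 (by linarith)
        linarith)
      rw [← hΛ] at g1 g2 g3
      set Λ1 := Real.log A1 with hΛ1
      have hΛ1ℓ : ℓ ≤ Λ1 := by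
        refine le_trans ?_ g1
        have h4 : (1 - 0.03 * θ) * ((1 + θ) * ℓ) ≤ (1 - 0.03 * θ) * Λ := mul_le_mul_of_nonneg_left h3.le (by linarith)
        have h5 : 1 ≤ (1 - 0.03 * θ) * (1 + θ) := by nlinarith
        have h6 : 1 * ℓ ≤ (1 - 0.03 * θ) * (1 + θ) * ℓ := mul_le_mul_of_nonneg_right h5 hℓpos.le
        linarith
      have hΛ1n : Λ1 ≤ n := by
        push_cast at h2
        have h4 : θ * ℓ ≤ θ * Λ := mul_le_mul_of_nonneg_left h1 hθ.le
        have h5 : q * Λ = Λ - θ * Λ / 160 := by rw [hq]; ring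
        linarith
      obtain ⟨A', hA', k1, k2, k3, k4⟩ := ih A1 hA1 hΛ1ℓ hΛ1n
      have hΛ1pos : 0 < Λ1 := by linarith
      have hΛ1q : Λ1 ≤ q * Λ := g2
      refine ⟨A', hA', k1, k2, ?_, ?_⟩
      · refine k3.trans (hΛ1q.trans ?_)
        exact mul_le_of_le_one_left hΛpos.le hq1.le
      · have h4 := Dist_tri f I A A1 A'
        have h5 := Phi_step hc0 hq0 hΛ1pos.le hΛ1q
        have hq6 := q6 hθ (by linarith)
        have h6 : AS (wt c) (Real.exp ((1 - 0.035 * θ) * Λ)) (Real.exp Λ) ≤ HH c Λ - HH c (q ^ 6 * Λ) := by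
          rw [HH_sub c (by have : 0 ≤ 1 - 0.035 * θ := by linarith
                           positivity) (by
            have : (1 - 0.035 * θ) * Λ ≤ 1 * Λ := mul_le_mul_of_nonneg_right (by linarith) hΛpos.le
            linarith)]
          have h7 : q ^ 6 * Λ ≤ (1 - 0.035 * θ) * Λ := mul_le_mul_of_nonneg_right hq6 hΛpos.le
          have h8 := HH_mono hc0 (x := q ^ 6 * Λ) (by positivity) h7
          linarith
        have h7 : B * AS (wt c) (Real.exp ((1 - 0.035 * θ) * Λ)) (Real.exp Λ) ≤ B * (Phi c q Λ - Phi c q Λ1) :=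
          mul_le_mul_of_nonneg_left (h6.trans h5) hB.le
        -- the error
        have hrΛ : 0 < rt4 Λ := rt4_pos hΛpos
        have hrΛ1 : 0 < rt4 Λ1 := rt4_pos hΛ1pos
        have h8 : 1 / rt4 q * (1 / rt4 Λ) ≤ 1 / rt4 Λ1 := by
          rw [one_div_mul_one_div]
          apply one_div_le_one_div_of_le hrΛ1
          rw [← rt4_mul hq0.le]
          exact rt4_mono hΛ1q
        have h9 : B / rt4 Λ ≤ B2 * (1 / rt4 Λ1 - 1 / rt4 Λ) := by
          have h10 : B2 * ((1 / rt4 q - 1) * (1 / rt4 Λ)) ≤ B2 * (1 / rt4 Λ1 - 1 / rt4 Λ) := by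
            apply mul_le_mul_of_nonneg_left _ hB20.le
            linarith
          refine le_trans (le_of_eq ?_) h10
          rw [hB2]
          have : 1 / rt4 q - 1 ≠ 0 := by linarith
          rw [← mul_assoc, div_mul_cancel₀ _ this]
          ring
        have e : B * (Phi c q Λ - Phi c q (Real.log A')) + B2 * (1 / rt4 (Real.log A') - 1 / rt4 Λ)
            = (B * (Phi c q Λ - Phi c q Λ1) + B2 * (1 / rt4 Λ1 - 1 / rt4 Λ))
              + (B * (Phi c q Λ1 - Phi c q (Real.log A')) + B2 * (1 / rt4 (Real.log A') - 1 / rt4 Λ1)) := by ring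
        rw [e]
        linarith
  intro A hA hℓA
  obtain ⟨A', hA', k1, k2, k3, k4⟩ := key ⌈Real.log A⌉₊ A hA hℓA (Nat.le_ceil _)
  refine ⟨A', hA', k1, k2, ?_⟩
  refine k4.trans ?_
  have hΛpos : 0 < Real.log A := by linarith
  have hΛ'pos : 0 < Real.log A' := by linarith
  have h1 : B2 * (1 / rt4 (Real.log A') - 1 / rt4 (Real.log A)) ≤ B2 / rt4 ℓ := by
    have g1 : 1 / rt4 (Real.log A') ≤ 1 / rt4 ℓ := one_div_le_one_div_of_le (rt4_pos hℓpos) (rt4_mono k1)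
    have g2 : 0 ≤ 1 / rt4 (Real.log A) := by
      have := rt4_nonneg (Real.log A)
      positivity
    have g3 := mul_le_mul_of_nonneg_left (show 1 / rt4 (Real.log A') - 1 / rt4 (Real.log A) ≤ 1 / rt4 ℓ by linarith) hB20.le
    refine g3.trans (le_of_eq ?_)
    ring
  have h2 : Phi c q (Real.log A) ≤ 6 * HH c (Real.log A) := by
    unfold Phi
    have g1 : ∑ i ∈ range 6, HH c (q ^ i * Real.log A) ≤ ∑ i ∈ range 6, HH c (Real.log A) := by
      apply sum_le_sum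
      intro i _
      apply HH_mono hc0 (by positivity)
      exact mul_le_of_le_one_left hΛpos.le (pow_le_one₀ hq0.le hq1.le)
    rw [sum_const, card_range, nsmul_eq_mul] at g1
    push_cast at g1
    exact g1
  have h3 : 6 * HH c (ℓ / 2) ≤ Phi c q (Real.log A') := by
    unfold Phi
    have hqq : 1 / 2 ≤ q ^ 5 := by
      have g1 : (39 / 40 : ℝ) ≤ q := by rw [hq]; linarith
      have g2 : (39 / 40 : ℝ) ^ 5 ≤ q ^ 5 := pow_le_pow_left₀ (by norm_num) g1 5
      have g3 : (1 / 2 : ℝ) ≤ (39 / 40 : ℝ) ^ 5 := by norm_num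
      linarith
    have g1 : ∑ i ∈ range 6, HH c (ℓ / 2) ≤ ∑ i ∈ range 6, HH c (q ^ i * Real.log A') := by
      apply sum_le_sum
      intro i hi
      rw [mem_range] at hi
      apply HH_mono hc0 (by positivity)
      have g2 : q ^ 5 ≤ q ^ i := pow_le_pow_of_le_one hq0.le hq1.le (by omega)
      have g3 : (1 / 2) * ℓ ≤ q ^ i * Real.log A' :=
        mul_le_mul (hqq.trans g2) k1 hℓpos.le (by positivity)
      linarith
    rw [sum_const, card_range, nsmul_eq_mul] at g1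
    push_cast at g1
    exact g1
  have h4 := HH_sub c (show 0 ≤ ℓ / 2 by positivity) (show ℓ / 2 ≤ Real.log A by linarith)
  rw [Real.exp_log hA] at h4
  rw [h4]
  have h5 : B * (Phi c q (Real.log A) - Phi c q (Real.log A')) ≤ B * (6 * HH c (Real.log A) - 6 * HH c (ℓ / 2)) :=
    mul_le_mul_of_nonneg_left (by linarith) hB.le
  linarith

end Pool.Agent.H82.BS
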