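import Pool.Agent.H82.BS.Dist

/-! The cost function for the pairs `2 m`, `2 m + 1`. -/

set_option autoImplicit false

namespace Pool.Agent.H82.BS

open Pool.Agent.H320R2.PD Pool.Agent.H499R2.ND Pool.Agent.H499R2.CO Pool.Agent.Y965.SI Finset

/-- the jump between `2 m` and `2 m + 1` -/
noncomputable def gj (f : ℤ → ℝ) (m : ℤ) : ℝ := |f (2 * m + 1) - f m|

/-- the cost function -/
noncomputable def ce (f : ℤ → ℝ) (m : ℤ) : ℝ := gj f m + gj f (m / 2)

theorem gj_nonneg (f : ℤ → ℝ) (m : ℤ) : 0 ≤ gj f m := abs_nonneg _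

theorem ce_nonneg (f : ℤ → ℝ) (m : ℤ) : 0 ≤ ce f m := add_nonneg (gj_nonneg f _) (gj_nonneg f _)

theorem AS_abs {h : ℤ → ℝ} (hh : ∀ x, |h x| ≤ 1) {a b : ℝ} (hab : a ≤ b) : |AS h a b| ≤ (b - a) + 1 := by
  refine le_trans ?_ (AS_card hab)
  unfold AS
  refine (abs_sum_le_sum_abs _ _).trans ?_
  exact sum_le_sum fun x _ => hh x

theorem OS_two (f : ℤ → ℝ) (a b : ℝ) : OS f (2 * a) (2 * b) = AS (fun m => f (2 * m + 1)) (a - 1 / 2) (b - 1 / 2) := by
  classical
  unfold OS Pool.Agent.W41.FU.WS AS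
  refine sum_bij' (fun x _ => (x - 1) / 2) (fun m _ => 2 * m + 1) ?_ ?_ ?_ ?_ ?_
  · intro x hx
    rw [mem_odd] at hx
    obtain ⟨⟨h1, h2⟩, t, ht⟩ := hx
    have e : (x - 1) / 2 = t := by omega
    rw [e, mem_win]
    have e2 : (x : ℝ) = 2 * t + 1 := by exact_mod_cast ht
    constructor <;> linarith
  · intro m hm
    rw [mem_win] at hm
    rw [mem_odd]
    push_cast
    exact ⟨⟨by linarith, by linarith⟩, ⟨m, by ring⟩⟩
  · intro x hx
    rw [mem_odd] at hx
    obtain ⟨-, t, ht⟩ := hx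
    omega
  · intro m _
    omega
  · intro x hx
    rw [mem_odd] at hx
    obtain ⟨-, t, ht⟩ := hx
    congr 1
    omega

theorem OS_AS_gj {f : ℤ → ℝ} (hf : ∀ x, |f x| ≤ 1) {a b : ℝ} (hab : a ≤ b) :
    |OS f (2 * a) (2 * b) - AS f a b| ≤ AS (gj f) a b + 3 := by
  rw [OS_two]
  set h : ℤ → ℝ := fun m => f (2 * m + 1) with hh
  have hh1 : ∀ x, |h x| ≤ 1 := fun x => hf _
  -- shift of the window
  have h1 : |AS h (a - 1 / 2) (b - 1 / 2) - AS h a b| ≤ 3 := by
    have e1 : AS h (a - 1 / 2) b = AS h (a - 1 / 2) (b - 1 / 2) + AS h (b - 1 / 2) b :=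
      (AS_add h (by linarith) (by linarith)).symm
    have e2 : AS h (a - 1 / 2) b = AS h (a - 1 / 2) a + AS h a b := (AS_add h (by linarith) hab).symm
    have h2 := AS_abs hh1 (a := b - 1 / 2) (b := b) (by linarith)
    have h3 := AS_abs hh1 (a := a - 1 / 2) (b := a) (by linarith)
    rw [abs_le] at h2 h3 ⊢
    constructor <;> linarith [h2.1, h2.2, h3.1, h3.2]
  have h2 : |AS h a b - AS f a b| ≤ AS (gj f) a b := by
    unfold AS
    rw [← sum_sub_distrib]
    exact abs_sum_le_sum_abs _ _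
  have h3 := abs_sub_le (AS h (a - 1 / 2) (b - 1 / 2)) (AS h a b) (AS f a b)
  linarith

theorem AS_half {g : ℤ → ℝ} (hg : ∀ m, 0 ≤ g m) (a b : ℝ) : AS g (a / 2) (b / 2) ≤ AS (fun m => g (m / 2)) a b := by
  classical
  unfold AS
  have h1 : ∑ y ∈ Ico ⌈a / 2⌉ ⌈b / 2⌉, g y = ∑ x ∈ (Ico ⌈a / 2⌉ ⌈b / 2⌉).image (fun y => 2 * y), g (x / 2) := by
    rw [sum_image]
    · apply sum_congr rfl
      intro y _
      congr 1
      omega
    · intro x _ y _ h
      have h2 : 2 * x = 2 * y := h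
      omega
  rw [h1]
  apply sum_le_sum_of_subset_of_nonneg
  · intro x hx
    rw [mem_image] at hx
    obtain ⟨y, hy, rfl⟩ := hx
    rw [mem_win] at hy ⊢
    push_cast
    constructor <;> linarith
  · intro x _ _
    exact hg _

/-- the cost function for the pairs `2 m`, `2 m + 1` -/
theorem LC_even {f : ℤ → ℝ} (hf : ∀ x, |f x| ≤ 1) (h2 : ∀ y, f (2 * y) = f y) : LC f (ce f) 6 := by
  refine ⟨ce_nonneg f, by norm_num, ?_⟩
  intro a b ha hab
  have h3 := OS_AS_gj hf hab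
  have h4 := OS_AS_gj hf (a := a / 2) (b := b / 2) (by linarith)
  have e1 : 2 * (a / 2) = a := by ring
  have e2 : 2 * (b / 2) = b := by ring
  rw [e1, e2] at h4
  have h5 := OS_AS h2 a b
  have h6 := AS_half (gj_nonneg f) a b
  have e3 : AS (ce f) a b = AS (gj f) a b + AS (fun m => gj f (m / 2)) a b := by
    unfold AS ce
    rw [sum_add_distrib]
  rw [e3]
  rw [abs_le] at h3 h4 ⊢
  constructor <;> linarith [h3.1, h3.2, h4.1, h4.2]

end Pool.Agent.H82.BS
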