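import Pool.Agent.H82.BS.Top
import Pool.Agent.H82.BS.Even

/-! From the weighted cost to the sum over the jumps. -/

set_option autoImplicit false

namespace Pool.Agent.H82.BS

open Pool.Agent.H320R2.PD Pool.Agent.H499R2.ND Pool.Agent.H499R2.CO Pool.Agent.Y965.SI Finset Filter Topology

/-- the weighted jump between `n` and `n + 1`, `n` even -/
noncomputable def hj (f : ℤ → ℝ) (n : ℤ) : ℝ := if n % 2 = 0 then |f (n + 1) - f n| / (|(n : ℝ)| * √ (Real.log n)) else 0

theorem hj_nonneg (f : ℤ → ℝ) (n : ℤ) : 0 ≤ hj f n := by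
  unfold hj; split_ifs <;> positivity

theorem AS_shift_one (g : ℤ → ℝ) (a b : ℝ) : AS (fun m => g (m - 1)) a b = AS g (a - 1) (b - 1) := by
  unfold AS
  refine sum_bij' (fun x _ => x - 1) (fun y _ => y + 1) ?_ ?_ ?_ ?_ ?_
  · intro x hx
    rw [mem_win] at hx ⊢
    push_cast
    constructor <;> linarith
  · intro y hy
    rw [mem_win] at hy ⊢
    push_cast
    constructor <;> linarith
  · intro x _; ring
  · intro y _; ring
  · intro x _; rfl

theorem conv {f : ℤ → ℝ} (h2 : ∀ y, f (2 * y) = f y) {a b : ℝ} (ha : 4 ≤ a) (hab : a ≤ b) :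
    AS (wt (ce f)) a b ≤ 5 * AS (hj f) (a - 1) (2 * b) := by
  classical
  -- first part
  have hA : AS (fun m => gj f m / (|(m : ℝ)| * √ (Real.log m))) a b ≤ 3 * AS (hj f) (a - 1) (2 * b) := by
    have h3 : AS (fun m => gj f m / (|(m : ℝ)| * √ (Real.log m))) a b ≤ AS (fun m => 3 * hj f (2 * m)) a b := by
      apply AS_mono
      intro m hm1 hm2
      have hm0 : (0 : ℝ) < m := by linarith
      have hm4 : (4 : ℝ) ≤ m := by linarith
      unfold hj
      rw [if_pos (by omega)]
      push_cast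
      rw [h2 m]
      have e : |f (2 * m + 1) - f m| = gj f m := rfl
      rw [e, abs_of_pos hm0, abs_of_pos (by linarith : (0 : ℝ) < 2 * m), mul_div_assoc',
        div_le_div_iff₀ (by
          have : 0 < Real.log m := Real.log_pos (by linarith)
          positivity) (by
          have : 0 < Real.log (2 * (m : ℝ)) := Real.log_pos (by linarith)
          positivity)]
      have hg := gj_nonneg f m
      have h5 : √ (Real.log (2 * (m : ℝ))) ≤ 3 / 2 * √ (Real.log m) := by
        have h6 : Real.log (2 * (m : ℝ)) ≤ 2 * Real.log m := by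
          rw [Real.log_mul (by norm_num) hm0.ne']
          have : Real.log 2 ≤ Real.log m := Real.log_le_log (by norm_num) (by linarith)
          linarith
        have h7 : 0 ≤ Real.log (m : ℝ) := Real.log_nonneg (by linarith)
        apply Real.sqrt_le_iff.2
        refine ⟨by positivity, ?_⟩
        rw [mul_pow, Real.sq_sqrt h7]
        linarith
      have h8 := mul_le_mul_of_nonneg_left h5 (show 0 ≤ gj f m * (2 * m) by positivity)
      linarith
    refine h3.trans ?_
    rw [AS_const_mul]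
    apply mul_le_mul_of_nonneg_left _ (by norm_num)
    have h9 : AS (fun m => hj f (2 * m)) a b = ∑ x ∈ (Ico ⌈a⌉ ⌈b⌉).image (fun y => 2 * y), hj f x := by
      unfold AS
      rw [sum_image]
      intro x _ y _ h
      have h2 : 2 * x = 2 * y := h
      omega
    rw [h9]
    unfold AS
    apply sum_le_sum_of_subset_of_nonneg
    · intro x hx
      rw [mem_image] at hx
      obtain ⟨y, hy, rfl⟩ := hx
      rw [mem_win] at hy ⊢
      push_cast
      constructor <;> linarith
    · intro x _ _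
      exact hj_nonneg f x
  -- second part
  have hB : AS (fun m => gj f (m / 2) / (|(m : ℝ)| * √ (Real.log m))) a b ≤ 2 * AS (hj f) (a - 1) (2 * b) := by
    have h3 : AS (fun m => gj f (m / 2) / (|(m : ℝ)| * √ (Real.log m))) a b ≤ AS (fun m => hj f m + hj f (m - 1)) a b := by
      apply AS_mono
      intro m hm1 hm2
      have hm0 : (0 : ℝ) < m := by linarith
      have hm4 : (4 : ℝ) ≤ m := by linarith
      rcases Int.emod_two_eq_zero_or_one m with h | h
      · have e1 : 2 * (m / 2) = m := by omega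
        have e2 : gj f (m / 2) / (|(m : ℝ)| * √ (Real.log m)) = hj f m := by
          unfold hj gj
          rw [if_pos h, e1]
          have : f (m / 2) = f m := by rw [← h2 (m / 2), e1]
          rw [this]
        rw [e2]
        linarith [hj_nonneg f (m - 1)]
      · have e1 : 2 * (m / 2) = m - 1 := by omega
        have e2 : gj f (m / 2) / (|(m : ℝ)| * √ (Real.log m)) ≤ hj f (m - 1) := by
          unfold hj
          rw [if_pos (by omega)]
          have e3 : gj f (m / 2) = |f (m - 1 + 1) - f (m - 1)| := by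
            unfold gj
            have : f (m / 2) = f (m - 1) := by rw [← h2 (m / 2), e1]
            rw [this, e1]
          rw [e3]
          push_cast
          have hm1' : (0 : ℝ) < (m : ℝ) - 1 := by linarith
          rw [abs_of_pos hm0, abs_of_pos hm1']
          apply div_le_div_of_nonneg_left (abs_nonneg _)
          · have : 0 < Real.log ((m : ℝ) - 1) := Real.log_pos (by linarith)
            positivity
          · apply mul_le_mul (by linarith) _ (Real.sqrt_nonneg _) hm0.le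
            exact Real.sqrt_le_sqrt (Real.log_le_log hm1' (by linarith))
        linarith [hj_nonneg f m]
    refine h3.trans ?_
    have e : AS (fun m => hj f m + hj f (m - 1)) a b = AS (hj f) a b + AS (fun m => hj f (m - 1)) a b := by
      unfold AS; rw [sum_add_distrib]
    rw [e, AS_shift_one]
    have h4 := AS_ext (hj_nonneg f) (a := a) (b := b) (a' := a - 1) (b' := 2 * b) (by linarith) hab (by linarith)
    have h5 := AS_ext (hj_nonneg f) (a := a - 1) (b := b - 1) (a' := a - 1) (b' := 2 * b) le_rfl (by linarith) (by linarith)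
    linarith
  have e : AS (wt (ce f)) a b = AS (fun m => gj f m / (|(m : ℝ)| * √ (Real.log m))) a b
      + AS (fun m => gj f (m / 2) / (|(m : ℝ)| * √ (Real.log m))) a b := by
    unfold AS
    rw [← sum_add_distrib]
    apply sum_congr rfl
    intro m _
    unfold wt ce
    rw [add_div]
  rw [e]
  linarith

theorem big_exp {N : ℕ} (hN : 62 ≤ N) : 2 * Real.exp ((N + 1 : ℝ) ^ 62) ≤ Real.exp ((N : ℝ) ^ 64) := by
  have hNR : (62 : ℝ) ≤ N := by exact_mod_cast hN
  have hN0 : (0 : ℝ) < N := by linarith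
  have h1 : (N + 1 : ℝ) ^ 62 ≤ 3 * (N : ℝ) ^ 62 := by
    have h2 : (1 + 1 / (N : ℝ)) ^ 62 ≤ 3 := by
      have h3 : 1 + 1 / (N : ℝ) ≤ Real.exp (1 / N) := by
        have := Real.add_one_le_exp (1 / (N : ℝ))
        linarith
      have h4 : (1 + 1 / (N : ℝ)) ^ 62 ≤ Real.exp (1 / N) ^ 62 := pow_le_pow_left₀ (by positivity) h3 62
      rw [← Real.exp_nat_mul] at h4
      have h5 : ((62 : ℕ) : ℝ) * (1 / N) ≤ 1 := by
        push_cast
        rw [mul_one_div, div_le_one hN0]
        exact hNR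
      have h6 := Real.exp_le_exp.2 h5
      have h7 := Real.exp_one_lt_d9
      linarith
    have e : (N + 1 : ℝ) = N * (1 + 1 / N) := by field_simp
    rw [e, mul_pow]
    have := mul_le_mul_of_nonneg_left h2 (show (0 : ℝ) ≤ (N : ℝ) ^ 62 by positivity)
    linarith
  have h2 : (2 : ℝ) ≤ Real.exp 1 := by
    have := Real.add_one_le_exp (1 : ℝ)
    linarith
  have h3 : 2 * Real.exp ((N + 1 : ℝ) ^ 62) ≤ Real.exp 1 * Real.exp ((N + 1 : ℝ) ^ 62) :=
    mul_le_mul_of_nonneg_right h2 (Real.exp_pos _).le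
  refine h3.trans ?_
  rw [← Real.exp_add]
  apply Real.exp_le_exp.2
  have h4 : (1 : ℝ) ≤ (N : ℝ) ^ 62 := one_le_pow₀ (by linarith)
  have h5 : (N : ℝ) ^ 64 = (N : ℝ) ^ 62 * (N : ℝ) ^ 2 := by ring
  have h6 : (4 : ℝ) ≤ (N : ℝ) ^ 2 := by nlinarith
  have h7 := mul_le_mul_of_nonneg_left h6 (show (0 : ℝ) ≤ (N : ℝ) ^ 62 by positivity)
  rw [h5]
  linarith

/-- the lower bound for the sum over the jumps -/
theorem jumps {s : ℤ} (hs : s = 1 ∨ s = -1) {δ₁ : ℝ} (hδ : 0 < δ₁) (hδ1 : δ₁ ≤ 1 / 2) :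
    ∃ (c₂ : ℝ) (N₀ : ℕ), 0 < c₂ ∧ 4 ≤ N₀ ∧ ∀ S : Set ℤ, Inv 1 S → ∀ D : ℝ, HD s S D → δ₁ ≤ D → D ≤ 1 - δ₁ →
      ∀ N : ℕ, N₀ ≤ N → c₂ ≤ AS (hj (ind s S)) N (Real.exp ((N : ℝ) ^ 64)) := by
  obtain ⟨c₁, ℓ0, hc₁, hℓ0, h⟩ := main hs hδ hδ1 (C₀ := 6) (by norm_num)
  obtain ⟨N₁, hN₁⟩ := exists_nat_ge (Real.exp (ℓ0 / 2))
  refine ⟨c₁ / 5, max 62 N₁, by positivity, le_trans (by norm_num) (le_max_left _ _), ?_⟩
  intro S hS D hD hD1 hD2 N hN
  have hN62 : 62 ≤ N := (le_max_left _ _).trans hN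
  have hNN₁ : (N₁ : ℝ) ≤ N := by exact_mod_cast (le_max_right _ _).trans hN
  have hNR : (62 : ℝ) ≤ N := by exact_mod_cast hN62
  set f : ℤ → ℝ := fun x => ind s S x - D with hf
  have hf1 : ∀ x, |f x| ≤ 1 := by
    intro x
    have := ind_01 s S x
    rw [hf, abs_le]; constructor <;> simp only <;> linarith [this.1, this.2]
  have hf2 : ∀ y, f (2 * y) = f y := fun y => by rw [hf]; simp only; rw [ind_two hs hS]
  set ℓ : ℝ := 2 * Real.log (N + 1) with hℓ
  have hexp1 : Real.exp (ℓ / 2) = N + 1 := by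
    rw [hℓ, mul_div_cancel_left₀ _ (by norm_num : (2 : ℝ) ≠ 0), Real.exp_log (by linarith)]
  have hexp2 : Real.exp (31 * ℓ) = (N + 1 : ℝ) ^ 62 := by
    have : 31 * ℓ = (62 : ℕ) * Real.log (N + 1) := by rw [hℓ]; push_cast; ring
    rw [this, Real.exp_nat_mul, Real.exp_log (by linarith)]
  have hℓ2 : ℓ0 ≤ ℓ := by
    have h1 : Real.exp (ℓ0 / 2) ≤ Real.exp (ℓ / 2) := by rw [hexp1]; linarith
    have := Real.exp_le_exp.1 h1
    linarith
  have h1 := h S hS D hD hD1 hD2 (ce f) (LC_even hf1 hf2) ℓ hℓ2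
  rw [hexp1, hexp2] at h1
  have hbig : (N : ℝ) + 1 ≤ Real.exp ((N + 1 : ℝ) ^ 62) := by
    have g1 := Real.add_one_le_exp ((N + 1 : ℝ) ^ 62)
    have g2 : (N + 1 : ℝ) ≤ (N + 1 : ℝ) ^ 62 := le_self_pow₀ (by linarith) (by norm_num)
    linarith
  have h2 := conv (f := f) hf2 (a := (N : ℝ) + 1) (b := Real.exp ((N + 1 : ℝ) ^ 62)) (by linarith) hbig
  have e1 : (N : ℝ) + 1 - 1 = N := by ring
  rw [e1] at h2
  have h3 : AS (hj f) N (2 * Real.exp ((N + 1 : ℝ) ^ 62)) ≤ AS (hj f) N (Real.exp ((N : ℝ) ^ 64)) :=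
    AS_ext (hj_nonneg f) le_rfl (by linarith [Real.exp_pos ((N + 1 : ℝ) ^ 62)]) (big_exp hN62)
  have e2 : hj f = hj (ind s S) := by
    funext n
    unfold hj
    have : f (n + 1) - f n = ind s S (n + 1) - ind s S n := by rw [hf]; ring
    rw [this]
  rw [e2] at h2 h3
  linarith

end Pool.Agent.H82.BS
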