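import Pool.Agent.H82.BS.Even

/-! The cost function for the pairs `n`, `n + 2` of odd integers, for the `3 x - 1` map. -/

set_option autoImplicit false

namespace Pool.Agent.H82.BS

open Pool.Agent.H320R2.PD Pool.Agent.H499R2.ND Pool.Agent.H499R2.CO Pool.Agent.Y965.SI Finset

/-- the jump between the odd integers `n` and `n + 2` -/
noncomputable def Dj (f : ℤ → ℝ) (n : ℤ) : ℝ := if n % 2 = 1 then |f (n + 2) - f n| else 0

theorem Dj_nonneg (f : ℤ → ℝ) (n : ℤ) : 0 ≤ Dj f n := by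
  unfold Dj; split_ifs <;> positivity

/-- the bound for the jump between `m` and `2 m + 1` -/
noncomputable def Xj (f : ℤ → ℝ) (m : ℤ) : ℝ :=
  Dj f m + Dj f (m - 2) + Dj f (4 * (m / 3) + 1) + Dj f (4 * (m / 3) - 3) + Dj f (2 * m - 7) + Dj f (2 * m - 5)
    + Dj f (2 * m - 3) + Dj f (2 * m - 1)

theorem Xj_nonneg (f : ℤ → ℝ) (m : ℤ) : 0 ≤ Xj f m := by
  unfold Xj
  have h := Dj_nonneg f
  linarith [h m, h (m - 2), h (4 * (m / 3) + 1), h (4 * (m / 3) - 3), h (2 * m - 7), h (2 * m - 5), h (2 * m - 3), h (2 * m - 1)]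

theorem Dj_abs {f : ℤ → ℝ} {n : ℤ} (h : n % 2 = 1) {n' : ℤ} (h' : n' = n + 2) : |f n' - f n| = Dj f n := by
  unfold Dj; rw [if_pos h, h']

theorem f43 {f : ℤ → ℝ} (hf : InvF (-1) f) (k : ℤ) : f (4 * k + 3) = f (3 * k + 2) := by
  rw [← hf.2 (4 * k + 3)]
  have e : Tz (-1) (4 * k + 3) = 2 * (3 * k + 2) := by
    unfold Tz
    rw [if_neg (by omega)]
    omega
  rw [e]
  exact f_two hf _

theorem f41 {f : ℤ → ℝ} (hf : InvF (-1) f) (k : ℤ) : f (4 * k + 1) = f (6 * k + 1) := by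
  rw [← hf.2 (4 * k + 1)]
  congr 1
  unfold Tz
  rw [if_neg (by omega)]
  omega

theorem jump_le {f : ℤ → ℝ} (hf : InvF (-1) f) {m : ℤ} (hm : m % 2 = 1) : |f (2 * m + 1) - f m| ≤ Xj f m := by
  have hnn := Dj_nonneg f
  have d1 : |f (2 * m + 1) - f (2 * m - 1)| = Dj f (2 * m - 1) := Dj_abs (by omega) (by ring)
  have d3 : |f (2 * m - 1) - f (2 * m - 3)| = Dj f (2 * m - 3) := Dj_abs (by omega) (by ring)
  have d5 : |f (2 * m - 3) - f (2 * m - 5)| = Dj f (2 * m - 5) := Dj_abs (by omega) (by ring)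
  have d7 : |f (2 * m - 5) - f (2 * m - 7)| = Dj f (2 * m - 7) := Dj_abs (by omega) (by ring)
  unfold Xj
  have n0 := hnn m
  have n1 := hnn (m - 2)
  have n2 := hnn (4 * (m / 3) + 1)
  have n3 := hnn (4 * (m / 3) - 3)
  have n4 := hnn (2 * m - 7)
  have n5 := hnn (2 * m - 5)
  have n6 := hnn (2 * m - 3)
  have n7 := hnn (2 * m - 1)
  have h3 : m % 3 = 0 ∨ m % 3 = 1 ∨ m % 3 = 2 := by omega
  rcases h3 with h | h | h
  · obtain ⟨k, hk⟩ : ∃ k, k = m / 3 := ⟨_, rfl⟩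
    have e1 : f (m + 2) = f (4 * k + 3) := by rw [f43 hf]; congr 1; omega
    have e2 : f (2 * m + 1) = f (4 * k + 1) := by rw [f41 hf]; congr 1; omega
    have g1 : |f (4 * k + 3) - f (4 * k + 1)| = Dj f (4 * k + 1) := Dj_abs (by omega) (by ring)
    have g2 : |f (m + 2) - f m| = Dj f m := Dj_abs hm rfl
    rw [← e1, ← e2, abs_sub_comm, hk] at g1
    have := abs_sub_le (f (2 * m + 1)) (f (m + 2)) (f m)
    linarith
  · obtain ⟨k, hk⟩ : ∃ k, k = m / 3 := ⟨_, rfl⟩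
    have e1 : f (m - 2) = f (4 * (k - 1) + 3) := by rw [f43 hf]; congr 1; omega
    have e2 : f (2 * m - 7) = f (4 * (k - 1) + 1) := by rw [f41 hf]; congr 1; omega
    have g1 : |f (4 * (k - 1) + 3) - f (4 * (k - 1) + 1)| = Dj f (4 * (k - 1) + 1) := Dj_abs (by omega) (by ring)
    have g2 : |f m - f (m - 2)| = Dj f (m - 2) := Dj_abs (by omega) (by ring)
    have e3 : 4 * (k - 1) + 1 = 4 * (m / 3) - 3 := by rw [hk]; ring
    rw [← e1, ← e2, e3] at g1
    have a1 := abs_sub_le (f (2 * m + 1)) (f (2 * m - 1)) (f m)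
    have a2 := abs_sub_le (f (2 * m - 1)) (f (2 * m - 3)) (f m)
    have a3 := abs_sub_le (f (2 * m - 3)) (f (2 * m - 5)) (f m)
    have a4 := abs_sub_le (f (2 * m - 5)) (f (2 * m - 7)) (f m)
    have a5 := abs_sub_le (f (2 * m - 7)) (f (m - 2)) (f m)
    rw [abs_sub_comm] at g1 g2
    linarith
  · obtain ⟨k, hk⟩ : ∃ k, k = m / 3 := ⟨_, rfl⟩
    have e1 : f m = f (4 * k + 3) := by rw [f43 hf]; congr 1; omega
    have e2 : f (2 * m - 3) = f (4 * k + 1) := by rw [f41 hf]; congr 1; omega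
    have g1 : |f (4 * k + 3) - f (4 * k + 1)| = Dj f (4 * k + 1) := Dj_abs (by omega) (by ring)
    rw [← e1, ← e2, abs_sub_comm, hk] at g1
    have a1 := abs_sub_le (f (2 * m + 1)) (f (2 * m - 1)) (f m)
    have a2 := abs_sub_le (f (2 * m - 1)) (f (2 * m - 3)) (f m)
    linarith

theorem OS_split4 (f : ℤ → ℝ) (a b : ℝ) : OS f (2 * a) (2 * b)
    = OS (fun m => f (2 * m - 1)) (a + 1 / 2) (b + 1 / 2) + OS (fun m => f (2 * m + 1)) (a - 1 / 2) (b - 1 / 2) := by
  classical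
  unfold OS Pool.Agent.W41.FU.WS
  rw [← sum_filter_add_sum_filter_not (cls Set.univ (2 * a) (2 * b) 0 1 0) (fun x => x % 4 = 1)]
  congr 1
  · refine sum_bij' (fun x _ => (x + 1) / 2) (fun m _ => 2 * m - 1) ?_ ?_ ?_ ?_ ?_
    · intro x hx
      rw [mem_filter, mem_odd] at hx
      obtain ⟨⟨⟨h1, h2⟩, -⟩, h4⟩ := hx
      obtain ⟨t, ht⟩ : ∃ t, x = 4 * t + 1 := ⟨x / 4, by omega⟩
      have e : (x + 1) / 2 = 2 * t + 1 := by omega
      rw [e, mem_odd]
      have e2 : (x : ℝ) = 4 * t + 1 := by exact_mod_cast ht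
      push_cast
      exact ⟨⟨by linarith, by linarith⟩, ⟨t, rfl⟩⟩
    · intro m hm
      rw [mem_odd] at hm
      obtain ⟨⟨h1, h2⟩, t, ht⟩ := hm
      rw [mem_filter, mem_odd]
      push_cast
      exact ⟨⟨⟨by linarith, by linarith⟩, ⟨m - 1, by ring⟩⟩, by omega⟩
    · intro x hx
      rw [mem_filter, mem_odd] at hx
      obtain ⟨-, h4⟩ := hx
      omega
    · intro m _
      omega
    · intro x hx
      rw [mem_filter, mem_odd] at hx
      obtain ⟨-, h4⟩ := hx
      congr 1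
      omega
  · refine sum_bij' (fun x _ => (x - 1) / 2) (fun m _ => 2 * m + 1) ?_ ?_ ?_ ?_ ?_
    · intro x hx
      rw [mem_filter, mem_odd] at hx
      obtain ⟨⟨⟨h1, h2⟩, h3⟩, h4⟩ := hx
      rw [Int.odd_iff] at h3
      obtain ⟨t, ht⟩ : ∃ t, x = 4 * t + 3 := ⟨x / 4, by omega⟩
      have e : (x - 1) / 2 = 2 * t + 1 := by omega
      rw [e, mem_odd]
      have e2 : (x : ℝ) = 4 * t + 3 := by exact_mod_cast ht
      push_cast
      exact ⟨⟨by linarith, by linarith⟩, ⟨t, rfl⟩⟩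
    · intro m hm
      rw [mem_odd] at hm
      obtain ⟨⟨h1, h2⟩, t, ht⟩ := hm
      rw [mem_filter, mem_odd]
      push_cast
      exact ⟨⟨⟨by linarith, by linarith⟩, ⟨m, by ring⟩⟩, by omega⟩
    · intro x hx
      rw [mem_filter, mem_odd] at hx
      obtain ⟨⟨-, h3⟩, h4⟩ := hx
      rw [Int.odd_iff] at h3
      omega
    · intro m _
      omega
    · intro x hx
      rw [mem_filter, mem_odd] at hx
      obtain ⟨⟨-, h3⟩, h4⟩ := hx
      rw [Int.odd_iff] at h3
      congr 1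
      omega

theorem OS_sh {h : ℤ → ℝ} (hh : ∀ x, |h x| ≤ 1) {a b t : ℝ} (ht : 0 ≤ t) (ht1 : t ≤ 1) (hab : a ≤ b) :
    |OS h (a + t) (b + t) - OS h a b| ≤ 3 := by
  have e1 : OS h a (b + t) = OS h a b + OS h b (b + t) := (OS_add h hab (by linarith)).symm
  have e2 : OS h a (b + t) = OS h a (a + t) + OS h (a + t) (b + t) := (OS_add h (by linarith) (by linarith)).symm
  have h2 := OS_abs hh (a := b) (b := b + t) (by linarith)
  have h3 := OS_abs hh (a := a) (b := a + t) (by linarith)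
  rw [abs_le] at h2 h3 ⊢
  constructor <;> linarith [h2.1, h2.2, h3.1, h3.2]

/-- the cost function -/
noncomputable def co (f : ℤ → ℝ) (m : ℤ) : ℝ := 3 * Xj f m

theorem LC_odd {f : ℤ → ℝ} (hf : InvF (-1) f) : LC f (co f) 6 := by
  refine ⟨fun m => by unfold co; linarith [Xj_nonneg f m], by norm_num, ?_⟩
  intro a b ha hab
  rw [OS_split4]
  set g1 : ℤ → ℝ := fun m => f (2 * m - 1) with hg1
  set g2 : ℤ → ℝ := fun m => f (2 * m + 1) with hg2
  have h1 := OS_sh (h := g1) (fun x => hf.1 _) (a := a) (b := b) (t := 1 / 2) (by norm_num) (by norm_num) hab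
  have h2 := OS_sh (h := g2) (fun x => hf.1 _) (a := a - 1 / 2) (b := b - 1 / 2) (t := 1 / 2) (by norm_num) (by norm_num)
    (by linarith)
  rw [sub_add_cancel, sub_add_cancel] at h2
  have h3 : |OS g1 a b + OS g2 a b - 2 * OS f a b| ≤ AS (co f) a b := by
    have e : OS g1 a b + OS g2 a b - 2 * OS f a b = ∑ m ∈ cls Set.univ a b 0 1 0, ((g1 m - f m) + (g2 m - f m)) := by
      unfold OS Pool.Agent.W41.FU.WS
      rw [sum_add_distrib, sum_sub_distrib, sum_sub_distrib]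
      ring
    rw [e]
    refine (abs_sum_le_sum_abs _ _).trans ?_
    have h4 : ∀ m ∈ cls Set.univ a b 0 1 0, |(g1 m - f m) + (g2 m - f m)| ≤ co f m := by
      intro m hm
      rw [mem_odd, Int.odd_iff] at hm
      have h5 := jump_le hf hm.2
      have h6 : |g1 m - g2 m| = Dj f (2 * m - 1) := by
        rw [abs_sub_comm]
        have e0 : 2 * m + 1 = 2 * m - 1 + 2 := by ring
        exact Dj_abs (f := f) (n := 2 * m - 1) (by omega) e0
      have h7 : Dj f (2 * m - 1) ≤ Xj f m := by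
        unfold Xj
        have h := Dj_nonneg f
        linarith [h m, h (m - 2), h (4 * (m / 3) + 1), h (4 * (m / 3) - 3), h (2 * m - 7), h (2 * m - 5), h (2 * m - 3)]
      have h8 : |g2 m - f m| ≤ Xj f m := h5
      have h9 := abs_sub_le (g1 m) (g2 m) (f m)
      have h10 := abs_add_le (g1 m - f m) (g2 m - f m)
      unfold co
      linarith
    refine (sum_le_sum h4).trans ?_
    unfold AS
    apply sum_le_sum_of_subset_of_nonneg
    · intro m hm
      rw [mem_odd] at hm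
      rw [mem_win]
      exact hm.1
    · intro m _ _
      unfold co
      linarith [Xj_nonneg f m]
  rw [abs_le] at h1 h2 h3 ⊢
  constructor <;> linarith [h1.1, h1.2, h2.1, h2.2, h3.1, h3.2]

end Pool.Agent.H82.BS
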