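import Pool.Agent.H82.BS.Top
import Pool.Agent.H82.BS.OddC

/-! From the weighted cost to the sum over the jumps, odd integers. -/

set_option autoImplicit false

namespace Pool.Agent.H82.BS

open Pool.Agent.H320R2.PD Pool.Agent.H499R2.ND Pool.Agent.H499R2.CO Pool.Agent.Y965.SI Finset Filter Topology

/-- the weighted jump between the odd integers `n` and `n + 2` -/
noncomputable def hd (f : ℤ → ℝ) (n : ℤ) : ℝ := Dj f n / (|(n : ℝ)| * √ (Real.log n))

theorem hd_nonneg (f : ℤ → ℝ) (n : ℤ) : 0 ≤ hd f n := by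
  unfold hd
  have := Dj_nonneg f n
  positivity

theorem fiber3 {F : ℤ → ℝ} (hF : ∀ n, 0 ≤ F n) (s T : Finset ℤ) (τ : ℤ → ℤ) (hτ : ∀ m ∈ s, τ m ∈ T)
    (h3 : ∀ n, (s.filter (fun m => τ m = n)).card ≤ 3) : ∑ m ∈ s, F (τ m) ≤ 3 * ∑ n ∈ T, F n := by
  classical
  rw [← sum_fiberwise_of_maps_to hτ, mul_sum]
  apply sum_le_sum
  intro n _
  have h1 : ∑ m ∈ s.filter (fun m => τ m = n), F (τ m) = ((s.filter (fun m => τ m = n)).card : ℝ) * F n := by
    rw [← nsmul_eq_mul, ← sum_const]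
    apply sum_congr rfl
    intro m hm
    rw [(mem_filter.1 hm).2]
  rw [h1]
  apply mul_le_mul_of_nonneg_right _ (hF n)
  exact_mod_cast h3 n

theorem inj3 (s : Finset ℤ) (τ : ℤ → ℤ) (hτ : Function.Injective τ) (n : ℤ) : (s.filter (fun m => τ m = n)).card ≤ 3 := by
  have : (s.filter (fun m => τ m = n)).card ≤ 1 := by
    rw [card_le_one]
    intro x hx y hy
    rw [mem_filter] at hx hy
    exact hτ (hx.2.trans hy.2.symm)
  omega

theorem div3 (s : Finset ℤ) (c : ℤ) (n : ℤ) : (s.filter (fun m => 4 * (m / 3) + c = n)).card ≤ 3 := by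
  classical
  have hsub : s.filter (fun m => 4 * (m / 3) + c = n) ⊆ ({3 * ((n - c) / 4), 3 * ((n - c) / 4) + 1, 3 * ((n - c) / 4) + 2} : Finset ℤ) := by
    intro m hm
    rw [mem_filter] at hm
    simp only [mem_insert, mem_singleton]
    omega
  refine (card_le_card hsub).trans ?_
  exact card_le_three

theorem conv_tau {f : ℤ → ℝ} {a b : ℝ} (ha : 20 ≤ a) (τ : ℤ → ℤ)
    (h1 : ∀ m : ℤ, 20 ≤ m → m ≤ 2 * τ m ∧ τ m < 2 * m)
    (h3 : ∀ (s : Finset ℤ) (n : ℤ), (s.filter (fun m => τ m = n)).card ≤ 3) :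
    AS (fun m => Dj f (τ m) / (|(m : ℝ)| * √ (Real.log m))) a b ≤ 9 * AS (hd f) (a / 2) (2 * b) := by
  have h4 : AS (fun m => Dj f (τ m) / (|(m : ℝ)| * √ (Real.log m))) a b ≤ AS (fun m => 3 * hd f (τ m)) a b := by
    apply AS_mono
    intro m hm1 hm2
    have hm20 : (20 : ℝ) ≤ m := by linarith
    have hm20' : (20 : ℤ) ≤ m := by exact_mod_cast hm20
    have hm0 : (0 : ℝ) < m := by linarith
    obtain ⟨g1, g2⟩ := h1 m hm20'
    have g1' : (m : ℝ) ≤ 2 * (τ m : ℝ) := by exact_mod_cast g1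
    have g2' : (τ m : ℝ) ≤ 2 * m := by exact_mod_cast g2.le
    have hτ0 : (0 : ℝ) < τ m := by linarith
    have hτ1 : (1 : ℝ) < τ m := by linarith
    unfold hd
    rw [abs_of_pos hm0, abs_of_pos hτ0, mul_div_assoc', div_le_div_iff₀ (by
      have : 0 < Real.log (m : ℝ) := Real.log_pos (by linarith)
      positivity) (by
      have : 0 < Real.log (τ m : ℝ) := Real.log_pos hτ1
      positivity)]
    have hD := Dj_nonneg f (τ m)
    have h5 : √ (Real.log (τ m : ℝ)) ≤ 3 / 2 * √ (Real.log m) := by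
      have h6 : Real.log (τ m : ℝ) ≤ 2 * Real.log m := by
        have h7 := Real.log_le_log hτ0 g2'
        rw [Real.log_mul (by norm_num) hm0.ne'] at h7
        have : Real.log 2 ≤ Real.log m := Real.log_le_log (by norm_num) (by linarith)
        linarith
      have h7 : 0 ≤ Real.log (m : ℝ) := Real.log_nonneg (by linarith)
      apply Real.sqrt_le_iff.2
      refine ⟨by positivity, ?_⟩
      rw [mul_pow, Real.sq_sqrt h7]
      linarith
    have h8 : (τ m : ℝ) * √ (Real.log (τ m : ℝ)) ≤ 2 * m * (3 / 2 * √ (Real.log m)) :=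
      mul_le_mul g2' h5 (Real.sqrt_nonneg _) (by positivity)
    have h9 := mul_le_mul_of_nonneg_left h8 hD
    linarith
  refine h4.trans ?_
  rw [AS_const_mul]
  have h5 : AS (fun m => hd f (τ m)) a b ≤ 3 * AS (hd f) (a / 2) (2 * b) := by
    unfold AS
    apply fiber3 (hd_nonneg f)
    · intro m hm
      rw [mem_win] at hm
      have hm20 : (20 : ℝ) ≤ m := by linarith
      have hm20' : (20 : ℤ) ≤ m := by exact_mod_cast hm20
      obtain ⟨g1, g2⟩ := h1 m hm20'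
      have g1' : (m : ℝ) ≤ 2 * (τ m : ℝ) := by exact_mod_cast g1
      have g2' : (τ m : ℝ) ≤ 2 * m := by exact_mod_cast g2.le
      rw [mem_win]
      constructor <;> linarith
    · exact h3 _
  linarith

theorem convO {f : ℤ → ℝ} {a b : ℝ} (ha : 20 ≤ a) :
    AS (wt (co f)) a b ≤ 216 * AS (hd f) (a / 2) (2 * b) := by
  have t1 := conv_tau (f := f) (a := a) (b := b) ha (fun m => m) (fun m hm => by omega)
    (fun s n => inj3 s _ (fun x y h => h) n)
  have t2 := conv_tau (f := f) (a := a) (b := b) ha (fun m => m - 2) (fun m hm => by omega)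
    (fun s n => inj3 s _ (fun x y h => by have : x - 2 = y - 2 := h; omega) n)
  have t3 := conv_tau (f := f) (a := a) (b := b) ha (fun m => 4 * (m / 3) + 1) (fun m hm => by omega)
    (fun s n => div3 s 1 n)
  have t4 := conv_tau (f := f) (a := a) (b := b) ha (fun m => 4 * (m / 3) - 3) (fun m hm => by omega)
    (fun s n => by simpa [sub_eq_add_neg] using div3 s (-3) n)
  have t5 := conv_tau (f := f) (a := a) (b := b) ha (fun m => 2 * m - 7) (fun m hm => by omega)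
    (fun s n => inj3 s _ (fun x y h => by have : 2 * x - 7 = 2 * y - 7 := h; omega) n)
  have t6 := conv_tau (f := f) (a := a) (b := b) ha (fun m => 2 * m - 5) (fun m hm => by omega)
    (fun s n => inj3 s _ (fun x y h => by have : 2 * x - 5 = 2 * y - 5 := h; omega) n)
  have t7 := conv_tau (f := f) (a := a) (b := b) ha (fun m => 2 * m - 3) (fun m hm => by omega)
    (fun s n => inj3 s _ (fun x y h => by have : 2 * x - 3 = 2 * y - 3 := h; omega) n)
  have t8 := conv_tau (f := f) (a := a) (b := b) ha (fun m => 2 * m - 1) (fun m hm => by omega)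
    (fun s n => inj3 s _ (fun x y h => by have : 2 * x - 1 = 2 * y - 1 := h; omega) n)
  have e : AS (wt (co f)) a b = 3 * (AS (fun m => Dj f m / (|(m : ℝ)| * √ (Real.log m))) a b
      + AS (fun m => Dj f (m - 2) / (|(m : ℝ)| * √ (Real.log m))) a b
      + AS (fun m => Dj f (4 * (m / 3) + 1) / (|(m : ℝ)| * √ (Real.log m))) a b
      + AS (fun m => Dj f (4 * (m / 3) - 3) / (|(m : ℝ)| * √ (Real.log m))) a b
      + AS (fun m => Dj f (2 * m - 7) / (|(m : ℝ)| * √ (Real.log m))) a b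
      + AS (fun m => Dj f (2 * m - 5) / (|(m : ℝ)| * √ (Real.log m))) a b
      + AS (fun m => Dj f (2 * m - 3) / (|(m : ℝ)| * √ (Real.log m))) a b
      + AS (fun m => Dj f (2 * m - 1) / (|(m : ℝ)| * √ (Real.log m))) a b) := by
    unfold AS
    rw [← sum_add_distrib, ← sum_add_distrib, ← sum_add_distrib, ← sum_add_distrib, ← sum_add_distrib,
      ← sum_add_distrib, ← sum_add_distrib, mul_sum]
    apply sum_congr rfl
    intro m _
    unfold wt co Xj
    ring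
  rw [e]
  linarith

theorem big_expO {N : ℕ} (hN : 2 ^ 32 ≤ N) : 2 * Real.exp ((2 * N : ℝ) ^ 62) ≤ Real.exp ((N : ℝ) ^ 64) := by
  have hNR : (2 : ℝ) ^ 32 ≤ N := by exact_mod_cast hN
  have hN1 : (1 : ℝ) ≤ N := le_trans (by norm_num) hNR
  have h2 : (2 : ℝ) ≤ Real.exp 1 := by
    have := Real.add_one_le_exp (1 : ℝ)
    linarith
  have h3 : 2 * Real.exp ((2 * N : ℝ) ^ 62) ≤ Real.exp 1 * Real.exp ((2 * N : ℝ) ^ 62) :=
    mul_le_mul_of_nonneg_right h2 (Real.exp_pos _).le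
  refine h3.trans ?_
  rw [← Real.exp_add]
  apply Real.exp_le_exp.2
  have h4 : (1 : ℝ) ≤ (N : ℝ) ^ 62 := one_le_pow₀ hN1
  have h5 : (N : ℝ) ^ 64 = (N : ℝ) ^ 62 * (N : ℝ) ^ 2 := by ring
  have h6 : ((2 : ℝ) ^ 32) ^ 2 ≤ (N : ℝ) ^ 2 := pow_le_pow_left₀ (by norm_num) hNR 2
  have h7 := mul_le_mul_of_nonneg_left h6 (show (0 : ℝ) ≤ (N : ℝ) ^ 62 by positivity)
  have h8 : (2 * N : ℝ) ^ 62 = 2 ^ 62 * (N : ℝ) ^ 62 := by rw [mul_pow]
  rw [h5, h8]
  norm_num at h7 ⊢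
  linarith

/-- the lower bound for the sum over the jumps -/
theorem jumpsO {δ₁ : ℝ} (hδ : 0 < δ₁) (hδ1 : δ₁ ≤ 1 / 2) :
    ∃ (c₂ : ℝ) (N₀ : ℕ), 0 < c₂ ∧ 4 ≤ N₀ ∧ ∀ S : Set ℤ, Inv 1 S → ∀ D : ℝ, HD (-1) S D → δ₁ ≤ D → D ≤ 1 - δ₁ →
      ∀ N : ℕ, N₀ ≤ N → c₂ ≤ AS (hd (ind (-1) S)) N (Real.exp ((N : ℝ) ^ 64)) := by
  obtain ⟨c₁, ℓ0, hc₁, hℓ0, h⟩ := main (s := -1) (Or.inr rfl) hδ hδ1 (C₀ := 6) (by norm_num)
  obtain ⟨N₁, hN₁⟩ := exists_nat_ge (Real.exp (ℓ0 / 2))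
  refine ⟨c₁ / 216, max (2 ^ 32) N₁, by positivity, le_trans (by norm_num) (le_max_left _ _), ?_⟩
  intro S hS D hD hD1 hD2 N hN
  have hN32 : 2 ^ 32 ≤ N := (le_max_left _ _).trans hN
  have hNN₁ : (N₁ : ℝ) ≤ N := by exact_mod_cast (le_max_right _ _).trans hN
  have hNR : (2 : ℝ) ^ 32 ≤ N := by exact_mod_cast hN32
  have hN10 : (10 : ℝ) ≤ N := le_trans (by norm_num) hNR
  set f : ℤ → ℝ := fun x => ind (-1) S x - D with hf
  have hfI : InvF (-1) f := by
    refine ⟨fun x => ?_, fun x => ?_⟩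
    · have := ind_01 (-1) S x
      rw [hf, abs_le]; constructor <;> simp only <;> linarith [this.1, this.2]
    · rw [hf]
      simp only
      rw [ind_inv (Or.inr rfl) hS]
  set ℓ : ℝ := 2 * Real.log (2 * N) with hℓ
  have hexp1 : Real.exp (ℓ / 2) = 2 * N := by
    rw [hℓ, mul_div_cancel_left₀ _ (by norm_num : (2 : ℝ) ≠ 0), Real.exp_log (by linarith)]
  have hexp2 : Real.exp (31 * ℓ) = (2 * N : ℝ) ^ 62 := by
    have : 31 * ℓ = (62 : ℕ) * Real.log (2 * N) := by rw [hℓ]; push_cast; ring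
    rw [this, Real.exp_nat_mul, Real.exp_log (by linarith)]
  have hℓ2 : ℓ0 ≤ ℓ := by
    have h1 : Real.exp (ℓ0 / 2) ≤ Real.exp (ℓ / 2) := by rw [hexp1]; linarith
    have := Real.exp_le_exp.1 h1
    linarith
  have h1 := h S hS D hD hD1 hD2 (co f) (LC_odd hfI) ℓ hℓ2
  rw [hexp1, hexp2] at h1
  have hbig : (N : ℝ) ≤ 2 * Real.exp ((2 * N : ℝ) ^ 62) := by
    have g1 := Real.add_one_le_exp ((2 * N : ℝ) ^ 62)
    have g2 : (2 * N : ℝ) ≤ (2 * N : ℝ) ^ 62 := le_self_pow₀ (by linarith) (by norm_num)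
    linarith
  have h2 := convO (f := f) (a := 2 * (N : ℝ)) (b := Real.exp ((2 * N : ℝ) ^ 62)) (by linarith)
  have e1 : 2 * (N : ℝ) / 2 = N := by ring
  rw [e1] at h2
  have h3 : AS (hd f) N (2 * Real.exp ((2 * N : ℝ) ^ 62)) ≤ AS (hd f) N (Real.exp ((N : ℝ) ^ 64)) :=
    AS_ext (hd_nonneg f) le_rfl hbig (big_expO hN32)
  have e2 : hd f = hd (ind (-1) S) := by
    funext n
    unfold hd Dj
    have : f (n + 2) - f n = ind (-1) S (n + 2) - ind (-1) S n := by rw [hf]; ring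
    rw [this]
  rw [e2] at h2 h3
  linarith

end Pool.Agent.H82.BS
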