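import Pool.Agent.H82.BS.Pigeon

/-! The cost of one stage in terms of the cost function. -/

set_option autoImplicit false

namespace Pool.Agent.H82.BS

open Pool.Agent.H320R2.PD Pool.Agent.H499R2.ND Pool.Agent.H499R2.CO Pool.Agent.Y965.SI Finset

/-- `2 - log 3 / log 2` -/
noncomputable def gg : ℝ := (2 * Real.log 2 - Real.log 3) / Real.log 2

theorem gg_bd : 0.39 ≤ gg ∧ gg ≤ 1 := by
  have h1 := log3_le
  have h2 := log3_ge
  have h3 := Real.log_two_gt_d9
  unfold gg
  constructor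
  · rw [le_div_iff₀ (by linarith)]; linarith
  · rw [div_le_one (by linarith)]; linarith

/-- the weight of the cost at `m` for the stage of length `k` -/
noncomputable def GG (A : ℝ) (K : ℕ) (c : ℤ → ℝ) (k : ℕ) (m : ℤ) : ℝ :=
  8 * (K : ℝ) / (4 * K + ((Real.log A - Real.log m) / Real.log 2 - gg * k) ^ 2) * (2 * c m / |(m : ℝ)|)

theorem GG_nonneg {A : ℝ} {K : ℕ} {c : ℤ → ℝ} (hc : ∀ m, 0 ≤ c m) (k : ℕ) (m : ℤ) : 0 ≤ GG A K c k m := by
  unfold GG
  have := hc m
  positivity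

theorem level_GG {A : ℝ} (hA : 0 < A) {K k : ℕ} (hK : 1 ≤ K) (hk1 : K < k) (hk2 : k ≤ 2 * K) {c : ℤ → ℝ}
    (hc : ∀ m, 0 ≤ c m) (l : ℕ) :
    4 * (k : ℝ) / (2 * k + dst k l ^ 2) * (AS c (A * 3 ^ k / 2 ^ (l + 1)) (2 * (A * 3 ^ k / 2 ^ (l + 1))) / (A * 3 ^ k / 2 ^ (l + 1)))
      ≤ AS (GG A K c k) (A * 3 ^ k / 2 ^ (l + 1)) (A * 3 ^ k / 2 ^ l) := by
  set Y := A * 3 ^ k / 2 ^ (l + 1) with hY
  have hY0 : 0 < Y := by positivity
  have e2Y : A * 3 ^ k / 2 ^ l = 2 * Y := by rw [hY, pow_succ]; field_simp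
  rw [e2Y]
  have hkR : (1 : ℝ) ≤ k := by exact_mod_cast (by omega : 1 ≤ k)
  have hk2R : (k : ℝ) ≤ 2 * K := by exact_mod_cast hk2
  have hKR : (1 : ℝ) ≤ K := by exact_mod_cast hK
  have e : 4 * (k : ℝ) / (2 * k + dst k l ^ 2) * (AS c Y (2 * Y) / Y)
      = AS (fun m => 4 * (k : ℝ) / (2 * k + dst k l ^ 2) / Y * c m) Y (2 * Y) := by
    rw [AS_const_mul]; ring
  rw [e]
  apply AS_mono
  intro m hm1 hm2
  have hm0 : (0 : ℝ) < m := lt_of_lt_of_le hY0 hm1
  have hl2 := Real.log_two_gt_d9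
  have hlog2 : 0 < Real.log 2 := by linarith
  -- logarithms
  have hlY : Real.log Y = Real.log A + k * Real.log 3 - ((l : ℝ) + 1) * Real.log 2 := by
    rw [hY, log_len hA]; push_cast; ring
  have hl1 : Real.log Y ≤ Real.log m := Real.log_le_log hY0 hm1
  have hl3 : Real.log m < Real.log (2 * Y) := Real.log_lt_log hm0 hm2
  rw [Real.log_mul (by norm_num) hY0.ne'] at hl3
  set z := (Real.log A - Real.log m) / Real.log 2 - gg * k with hz
  have hz1 : z * Real.log 2 = Real.log A - Real.log m - k * (2 * Real.log 2 - Real.log 3) := by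
    rw [hz]; unfold gg; field_simp
  have hz2 : z ≤ (l : ℝ) + 1 - 2 * k := by
    have : z * Real.log 2 ≤ ((l : ℝ) + 1 - 2 * k) * Real.log 2 := by rw [hz1]; linarith
    exact le_of_mul_le_mul_right this hlog2
  have hz3 : (l : ℝ) - 2 * k ≤ z := by
    have : ((l : ℝ) - 2 * k) * Real.log 2 ≤ z * Real.log 2 := by rw [hz1]; linarith
    exact le_of_mul_le_mul_right this hlog2
  have hzd : z ^ 2 ≤ dst k l ^ 2 := by
    rw [← sq_abs z]
    apply pow_le_pow_left₀ (abs_nonneg z)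
    unfold dst
    split_ifs with h
    · have h1 : (2 * k : ℝ) ≤ l := by exact_mod_cast h
      rw [abs_le]; constructor <;> linarith
    · push Not at h
      have h1 : (l : ℝ) + 1 ≤ 2 * k := by exact_mod_cast h
      rw [abs_le]; constructor <;> linarith
  have hκ : 4 * (k : ℝ) / (2 * k + dst k l ^ 2) ≤ 8 * (K : ℝ) / (4 * K + z ^ 2) := by
    have h1 : 4 * (k : ℝ) / (2 * k + dst k l ^ 2) ≤ 4 * (k : ℝ) / (2 * k + z ^ 2) := by
      apply div_le_div_of_nonneg_left (by positivity) (by positivity)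
      linarith
    refine h1.trans ?_
    rw [div_le_div_iff₀ (by positivity) (by positivity)]
    have h2 : (k : ℝ) * z ^ 2 ≤ (2 * K) * z ^ 2 := mul_le_mul_of_nonneg_right hk2R (sq_nonneg z)
    nlinarith
  have hY2 : 1 / Y ≤ 2 / |(m : ℝ)| := by
    rw [abs_of_pos hm0, div_le_div_iff₀ hY0 hm0]; linarith
  unfold GG
  rw [← hz]
  have hcm := hc m
  have e1 : 4 * (k : ℝ) / (2 * k + dst k l ^ 2) / Y * c m = 4 * (k : ℝ) / (2 * k + dst k l ^ 2) * (1 / Y * c m) := by ring
  have e2 : 8 * (K : ℝ) / (4 * K + z ^ 2) * (2 * c m / |(m : ℝ)|) = 8 * (K : ℝ) / (4 * K + z ^ 2) * (2 / |(m : ℝ)| * c m) := by ring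
  rw [e1, e2]
  apply mul_le_mul hκ _ (by positivity) (by positivity)
  exact mul_le_mul_of_nonneg_right hY2 hcm

theorem Dist_cost {d : ℤ} (hd : Odd d) (hd3 : IsCoprime d 3) (hdd : d * d = 1) {C₀ : ℝ} (hC₀ : 0 ≤ C₀) :
    ∃ (C : ℝ) (K0 : ℕ), 0 < C ∧ 1 ≤ K0 ∧ ∀ f c : ℤ → ℝ, InvF d f → LC f c C₀ → ∀ I : ℕ, 1 ≤ I → ∀ A : ℝ, 0 < A →
      ∀ K : ℕ, K0 ≤ K → 20 * (K : ℝ) ≤ Real.log (A / I) → ∀ k ∈ Ioc K (2 * K),
      Dist f I A (A * 3 ^ k / 2 ^ (2 * k)) ≤ C / rt4 K + AS (GG A K c k) (A * Real.exp (-(0.7 * K))) A := by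
  obtain ⟨C, k0, hC, hk0, hst⟩ := stageR hd hd3 hdd
  refine ⟨2 * C + 6400 + (C₀ + 1), max k0 100, by positivity, le_trans (by norm_num) (le_max_right _ _), ?_⟩
  intro f c hf hc I hI A hA K hK hL k hk
  rw [mem_Ioc] at hk
  obtain ⟨hk1, hk2⟩ := hk
  have hK0 : k0 ≤ K := (le_max_left _ _).trans hK
  have hK100 : 100 ≤ K := (le_max_right _ _).trans hK
  have hKR : (100 : ℝ) ≤ K := by exact_mod_cast hK100
  have hk2R : (k : ℝ) ≤ 2 * K := by exact_mod_cast hk2
  have hk1R : (K : ℝ) ≤ k := by exact_mod_cast hk1.le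
  have hkR : (100 : ℝ) ≤ k := hKR.trans hk1R
  have hI0 : (0 : ℝ) < I := by exact_mod_cast hI
  obtain ⟨hm, hstk⟩ := hst k (by omega)
  have hc0 := hc.1
  set B := A * 3 ^ k with hB
  have hB0 : 0 < B := by positivity
  have h1 := Dist_stage hf hI hm (hstk f hf) hA (by linarith)
  -- the walk
  set h : ℕ := k / 20 with hh
  have hh1 : 1 ≤ h := by omega
  have hh2 : (h : ℝ) ≤ k / 20 := by
    have : 20 * h ≤ k := by omega
    have : (20 : ℝ) * h ≤ k := by exact_mod_cast this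
    linarith
  have hh3 : (k : ℝ) / 40 ≤ h := by
    have : k ≤ 40 * h := by omega
    have : (k : ℝ) ≤ 40 * h := by exact_mod_cast this
    linarith
  have h2 := walk (cap := 3 * k) (k := k) (h := h) (by omega) hh1 (fun l => lam c C₀ I (B / 2 ^ (l + 1)))
    (fun T => Dist f I (B / 2 ^ T) (B / 2 ^ (2 * k))) (fun l => lam_nonneg hc0 hC₀ I (by positivity))
    (fun T => Dist_le_two hf.1 hI (by positivity) (by positivity))
    (fun T hT _ => by
      rw [Dist_comm]
      exact Dist_down hf.1 hc hI hB0 (2 * k) T hT)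
    (fun T hT _ => Dist_down hf.1 hc hI hB0 T (2 * k) hT)
  -- the costs
  have h3 : ∑ l ∈ Ico (2 * k - h) (2 * k + h), 4 * (k : ℝ) / (2 * k + dst k l ^ 2) * lam c C₀ I (B / 2 ^ (l + 1))
      ≤ AS (GG A K c k) (A * Real.exp (-(0.7 * K))) A + (C₀ + 1) * (1 / K) := by
    have hlog2 := Real.log_two_gt_d9
    have hlog2' := Real.log_two_lt_d9
    obtain ⟨hγ1, hγ2⟩ := log43
    have h4 : ∀ l ∈ Ico (2 * k - h) (2 * k + h), 4 * (k : ℝ) / (2 * k + dst k l ^ 2) * lam c C₀ I (B / 2 ^ (l + 1))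
        ≤ AS (GG A K c k) (B / 2 ^ (l + 1)) (B / 2 ^ l) + 2 * ((C₀ + 1) * (1 / (K : ℝ) ^ 2)) := by
      intro l hl
      rw [mem_Ico] at hl
      have e : lam c C₀ I (B / 2 ^ (l + 1)) = AS c (B / 2 ^ (l + 1)) (2 * (B / 2 ^ (l + 1))) / (B / 2 ^ (l + 1))
          + (C₀ + 1) * (I / (B / 2 ^ (l + 1))) := by
        unfold lam; ring
      rw [e, mul_add]
      have h5 := level_GG hA (by omega : 1 ≤ K) hk1 hk2 hc0 l
      have h6 : 4 * (k : ℝ) / (2 * k + dst k l ^ 2) ≤ 2 := by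
        rw [div_le_iff₀ (by positivity)]
        nlinarith [sq_nonneg (dst k l)]
      have h7 : (I : ℝ) / (B / 2 ^ (l + 1)) ≤ 1 / (K : ℝ) ^ 2 := by
        have hpos : 0 < B / 2 ^ (l + 1) := by positivity
        have e3 : Real.log ((I : ℝ) / (B / 2 ^ (l + 1))) = -(Real.log (A / I)) - k * Real.log 3 + ((l : ℝ) + 1) * Real.log 2 := by
          rw [Real.log_div hI0.ne' hpos.ne', hB, log_len hA, Real.log_div hA.ne' hI0.ne']
          push_cast; ring
        have h8 : ((l : ℝ) + 1) ≤ 2 * k + h := by exact_mod_cast hl.2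
        have h9 : Real.log ((I : ℝ) / (B / 2 ^ (l + 1))) ≤ -(2 * K) := by
          rw [e3]
          have h10 : ((l : ℝ) + 1) * Real.log 2 ≤ (2 * k + h) * Real.log 2 :=
            mul_le_mul_of_nonneg_right h8 (by linarith)
          have h11 : (h : ℝ) * Real.log 2 ≤ (k / 20) * 0.7 := by
            apply mul_le_mul hh2 (by linarith) (by linarith) (by positivity)
          have h12 : (k : ℝ) * (2 * Real.log 2 - Real.log 3) ≤ k * 0.3 := mul_le_mul_of_nonneg_left hγ2 (by positivity)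
          nlinarith
        have h13 : (I : ℝ) / (B / 2 ^ (l + 1)) ≤ Real.exp (-(2 * K)) := by
          rw [← Real.exp_log (show 0 < (I : ℝ) / (B / 2 ^ (l + 1)) by positivity)]
          exact Real.exp_le_exp.2 h9
        refine h13.trans ?_
        have h14 := Pool.Agent.W41.FU.exp_neg_le_inv (x := (K : ℝ)) (by linarith)
        have e4 : Real.exp (-(2 * (K : ℝ))) = Real.exp (-(K : ℝ)) ^ 2 := by
          rw [← Real.exp_nat_mul]; congr 1; push_cast; ring
        rw [e4]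
        have h15 := pow_le_pow_left₀ (Real.exp_pos _).le h14 2
        refine h15.trans (le_of_eq ?_)
        rw [div_pow, one_pow]
      have h16 : 4 * (k : ℝ) / (2 * k + dst k l ^ 2) * ((C₀ + 1) * (I / (B / 2 ^ (l + 1)))) ≤ 2 * ((C₀ + 1) * (1 / (K : ℝ) ^ 2)) := by
        apply mul_le_mul h6 _ (by positivity) (by norm_num)
        exact mul_le_mul_of_nonneg_left h7 (by linarith)
      linarith
    refine (sum_le_sum h4).trans ?_
    rw [sum_add_distrib, AS_tele _ hB0 _ _ (by omega), sum_const, Nat.card_Ico, nsmul_eq_mul]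
    apply add_le_add
    · apply AS_ext (GG_nonneg hc0 k)
      · -- lower end
        rw [le_div_iff₀ (by positivity)]
        have e5 : (2 : ℝ) ^ (2 * k + h) = Real.exp ((2 * k + h) * Real.log 2) := by
          have := Real.exp_nat_mul (Real.log 2) (2 * k + h)
          rw [Real.exp_log (by norm_num)] at this
          rw [← this]; push_cast; ring_nf
        have e6 : (3 : ℝ) ^ k = Real.exp (k * Real.log 3) := by
          have := Real.exp_nat_mul (Real.log 3) k
          rw [Real.exp_log (by norm_num)] at this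
          rw [← this]
        rw [hB, e5, e6, mul_assoc, ← Real.exp_add]
        apply mul_le_mul_of_nonneg_left _ hA.le
        apply Real.exp_le_exp.2
        have h11 : (h : ℝ) * Real.log 2 ≤ (k / 20) * 0.7 := by
          apply mul_le_mul hh2 (by linarith) (by linarith) (by positivity)
        have h12 : (k : ℝ) * (2 * Real.log 2 - Real.log 3) ≤ k * 0.3 := mul_le_mul_of_nonneg_left hγ2 (by positivity)
        nlinarith
      · apply div_le_div_of_nonneg_left hB0.le (by positivity)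
        exact pow_le_pow_right₀ (by norm_num) (by omega)
      · rw [div_le_iff₀ (by positivity)]
        have hle : 2 * k - h + h = 2 * k := by omega
        have hle' : ((2 * k - h : ℕ) : ℝ) = 2 * k - h := by
          have : ((2 * k - h : ℕ) : ℝ) + h = 2 * k := by exact_mod_cast hle
          linarith
        have e5 : (2 : ℝ) ^ (2 * k - h) = Real.exp ((2 * k - h) * Real.log 2) := by
          have := Real.exp_nat_mul (Real.log 2) (2 * k - h)
          rw [Real.exp_log (by norm_num), hle'] at this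
          rw [← this]
        have e6 : (3 : ℝ) ^ k = Real.exp (k * Real.log 3) := by
          have := Real.exp_nat_mul (Real.log 3) k
          rw [Real.exp_log (by norm_num)] at this
          rw [← this]
        rw [hB, e5, e6]
        apply mul_le_mul_of_nonneg_left _ hA.le
        apply Real.exp_le_exp.2
        have h11 : (h : ℝ) * Real.log 2 ≤ (k / 20) * 0.7 := by
          apply mul_le_mul hh2 (by linarith) (by linarith) (by positivity)
        have h12 : (k : ℝ) * 0.27 ≤ k * (2 * Real.log 2 - Real.log 3) := mul_le_mul_of_nonneg_left hγ1 (by positivity)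
        nlinarith
    · have h5 : ((2 * k + h - (2 * k - h) : ℕ) : ℝ) ≤ K / 2 := by
        have h6 : 2 * k + h - (2 * k - h) = 2 * h := by omega
        rw [h6]
        push_cast
        linarith
      have h6 : ((2 * k + h - (2 * k - h) : ℕ) : ℝ) * (2 * ((C₀ + 1) * (1 / (K : ℝ) ^ 2))) ≤ K / 2 * (2 * ((C₀ + 1) * (1 / (K : ℝ) ^ 2))) :=
        mul_le_mul_of_nonneg_right h5 (by positivity)
      refine h6.trans (le_of_eq ?_)
      field_simp
  -- conclusion
  have hK1 : 1 / (K : ℝ) ≤ 1 / rt4 K := by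
    apply one_div_le_one_div_of_le (rt4_pos (by linarith))
    have h5 := rt4_pow (show (0 : ℝ) ≤ K by linarith)
    have h6 := rt4_nonneg (K : ℝ)
    by_contra hcon
    push Not at hcon
    have h7 : (K : ℝ) ^ 4 < rt4 (K : ℝ) ^ 4 := pow_lt_pow_left₀ hcon (by linarith) (by norm_num)
    rw [h5] at h7
    have h8 : (K : ℝ) ≤ (K : ℝ) ^ 4 := le_self_pow₀ (by linarith) (by norm_num)
    linarith
  have hrk : C / rt4 k ≤ C / rt4 K := div_le_div_of_nonneg_left hC.le (rt4_pos (by linarith)) (rt4_mono hk1R)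
  have h5 : 4 * (k : ℝ) / (h : ℝ) ^ 2 ≤ 6400 * (1 / K) := by
    have h6 : ((k : ℝ) / 40) ^ 2 ≤ (h : ℝ) ^ 2 := pow_le_pow_left₀ (by positivity) hh3 2
    have h7 : 4 * (k : ℝ) / (h : ℝ) ^ 2 ≤ 4 * (k : ℝ) / ((k : ℝ) / 40) ^ 2 := by
      apply div_le_div_of_nonneg_left (by positivity) (by positivity) h6
    have e : 4 * (k : ℝ) / ((k : ℝ) / 40) ^ 2 = 6400 * (1 / k) := by
      field_simp; norm_num
    rw [e] at h7
    have h8 : 1 / (k : ℝ) ≤ 1 / K := one_div_le_one_div_of_le (by linarith) hk1R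
    linarith
  have e9 : (2 * C + 6400 + (C₀ + 1)) / rt4 (K : ℝ) = 2 * (C / rt4 K) + 6400 * (1 / rt4 K) + (C₀ + 1) * (1 / rt4 K) := by ring
  rw [e9]
  have h10 : (C₀ + 1) * (1 / (K : ℝ)) ≤ (C₀ + 1) * (1 / rt4 K) := mul_le_mul_of_nonneg_left hK1 (by linarith)
  linarith

end Pool.Agent.H82.BS
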