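import Pool.Agent.H82.BS.Conv

/-! Divergence, and the number of the jumps. -/

set_option autoImplicit false

namespace Pool.Agent.H82.BS

open Finset Filter Topology

/-- the weight -/
noncomputable def w (n : ℕ) : ℝ := 1 / (n * √ (Real.log n))

theorem w_nonneg (n : ℕ) : 0 ≤ w n := by unfold w; positivity

/-- the number of elements of `B` in `[1, N]` -/
noncomputable def cnt (B : Set ℕ) (N : ℕ) : ℝ := ({n : ℕ | 1 ≤ n ∧ n ≤ N ∧ n ∈ B}.ncard : ℝ)

open Classical in
theorem cnt_eq (B : Set ℕ) (N : ℕ) : cnt B N = (((Icc 1 N).filter (fun n => n ∈ B)).card : ℝ) := by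
  unfold cnt
  congr 1
  rw [← Set.ncard_coe_finset]
  congr 1
  ext n
  simp [and_assoc]

/-- a nonsummable series has arbitrarily far finite sums bounded below -/
theorem not_summable_of {g : ℕ → ℝ} (hg : ∀ n, 0 ≤ g n) {c : ℝ} (hc : 0 < c) {N₀ : ℕ}
    (h : ∀ N : ℕ, N₀ ≤ N → ∃ M : ℕ, c ≤ ∑ n ∈ Ico N M, g n) : ¬ Summable g := by
  intro hs
  rw [summable_iff_vanishing_norm] at hs
  obtain ⟨s, hs⟩ := hs c hc
  obtain ⟨M, hM⟩ := h (max N₀ (s.sup id + 1)) (le_max_left _ _)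
  have h1 := hs (Ico (max N₀ (s.sup id + 1)) M) (by
    rw [Finset.disjoint_left]
    intro n hn hns
    rw [mem_Ico] at hn
    have h2 : n ≤ s.sup id := Finset.le_sup (f := id) hns
    have h3 : s.sup id + 1 ≤ n := (le_max_right _ _).trans hn.1
    omega)
  have h2 : 0 ≤ ∑ n ∈ Ico (max N₀ (s.sup id + 1)) M, g n := sum_nonneg fun n _ => hg n
  rw [Real.norm_eq_abs, abs_of_nonneg h2] at h1
  linarith

theorem sum_log {ε : ℝ} (hε : 0 < ε) : Summable (fun j : ℕ => 1 / ((j : ℝ) * (Real.log (j + 1)) ^ (1 + ε))) := by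
  have hnn : ∀ n : ℕ, 0 ≤ 1 / ((n : ℝ) * (Real.log (n + 1)) ^ (1 + ε)) := by
    intro n
    have : 0 ≤ Real.log ((n : ℝ) + 1) := Real.log_nonneg (by
      have : (0 : ℝ) ≤ n := Nat.cast_nonneg n
      linarith)
    positivity
  rw [← summable_condensed_iff_of_nonneg hnn]
  · rw [← summable_nat_add_iff 1]
    have hp : Summable (fun k : ℕ => 1 / (Real.log 2) ^ (1 + ε) * (1 / ((k + 1 : ℕ) : ℝ) ^ (1 + ε))) :=
      ((summable_nat_add_iff 1).2 (Real.summable_one_div_nat_rpow.2 (by linarith))).mul_left _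
    refine Summable.of_nonneg_of_le (fun k => ?_) (fun k => ?_) hp
    · exact mul_nonneg (by positivity) (hnn _)
    · have hl2 : 0 < Real.log 2 := Real.log_pos (by norm_num)
      have h2k : (0 : ℝ) < 2 ^ (k + 1) := by positivity
      push_cast
      have h1 : ((k : ℝ) + 1) * Real.log 2 ≤ Real.log (2 ^ (k + 1) + 1) := by
        have h2 : Real.log (2 ^ (k + 1)) ≤ Real.log (2 ^ (k + 1) + 1) := Real.log_le_log h2k (by linarith)
        rw [Real.log_pow] at h2
        push_cast at h2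
        exact h2
      have h3 : (((k : ℝ) + 1) * Real.log 2) ^ (1 + ε) ≤ (Real.log (2 ^ (k + 1) + 1)) ^ (1 + ε) :=
        Real.rpow_le_rpow (by positivity) h1 (by linarith)
      have h4 : (((k : ℝ) + 1) * Real.log 2) ^ (1 + ε) = ((k : ℝ) + 1) ^ (1 + ε) * (Real.log 2) ^ (1 + ε) :=
        Real.mul_rpow (by positivity) hl2.le
      have h5 : 0 < (Real.log (2 ^ (k + 1) + 1)) ^ (1 + ε) := lt_of_lt_of_le (by positivity) h3
      have e1 : (2 : ℝ) ^ (k + 1) * (1 / (2 ^ (k + 1) * (Real.log (2 ^ (k + 1) + 1)) ^ (1 + ε)))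
          = 1 / (Real.log (2 ^ (k + 1) + 1)) ^ (1 + ε) := by
        field_simp
      have e2 : 1 / (Real.log 2) ^ (1 + ε) * (1 / ((k : ℝ) + 1) ^ (1 + ε)) = 1 / (((k : ℝ) + 1) * Real.log 2) ^ (1 + ε) := by
        rw [h4, one_div_mul_one_div, mul_comm]
      rw [e1, e2]
      exact one_div_le_one_div_of_le (by positivity) h3
  · intro m n hm hmn
    have hmR : (1 : ℝ) ≤ m := by exact_mod_cast hm
    have hmnR : (m : ℝ) ≤ n := by exact_mod_cast hmn
    apply one_div_le_one_div_of_le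
    · have : 0 < Real.log ((m : ℝ) + 1) := Real.log_pos (by linarith)
      positivity
    · apply mul_le_mul hmnR _ _ (by linarith)
      · apply Real.rpow_le_rpow (Real.log_nonneg (by linarith)) _ (by linarith)
        exact Real.log_le_log (by linarith) (by linarith)
      · apply Real.rpow_nonneg
        exact Real.log_nonneg (by linarith)

/-- a dyadic block -/
theorem block_le (B : Set ℕ) {j : ℕ} (hj : 1 ≤ j) :
    ∑ n ∈ Ico (2 ^ j) (2 ^ (j + 1)), B.indicator w n ≤ cnt B (2 ^ (j + 1)) * (1 / (2 ^ j * √ (j * Real.log 2))) := by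
  classical
  have hl2 : 0 < Real.log 2 := Real.log_pos (by norm_num)
  have hjR : (1 : ℝ) ≤ j := by exact_mod_cast hj
  have h1 : ∀ n ∈ Ico (2 ^ j) (2 ^ (j + 1)), B.indicator w n ≤ if n ∈ B then 1 / (2 ^ j * √ (j * Real.log 2)) else 0 := by
    intro n hn
    rw [mem_Ico] at hn
    have hnR : (2 : ℝ) ^ j ≤ n := by exact_mod_cast hn.1
    by_cases hB : n ∈ B
    · rw [Set.indicator_of_mem hB, if_pos hB]
      unfold w
      apply one_div_le_one_div_of_le (by positivity)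
      apply mul_le_mul hnR _ (by positivity) (by positivity)
      apply Real.sqrt_le_sqrt
      rw [← Real.log_pow]
      exact Real.log_le_log (by positivity) hnR
    · rw [Set.indicator_of_notMem hB, if_neg hB]
  refine (sum_le_sum h1).trans ?_
  rw [← sum_filter, sum_const, nsmul_eq_mul, cnt_eq]
  apply mul_le_mul_of_nonneg_right _ (by positivity)
  have h2 : ((Ico (2 ^ j) (2 ^ (j + 1))).filter (fun n => n ∈ B)).card ≤ ((Icc 1 (2 ^ (j + 1))).filter (fun n => n ∈ B)).card := by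
    apply card_le_card
    intro n hn
    rw [mem_filter, mem_Ico] at hn
    rw [mem_filter, mem_Icc]
    have : 1 ≤ 2 ^ j := Nat.one_le_two_pow
    exact ⟨⟨by omega, by omega⟩, hn.2⟩
  exact_mod_cast h2

/-- if the series diverges then the number of elements is infinitely often almost `N / √ (log N)` -/
theorem count_inf {B : Set ℕ} (hB : ¬ Summable (B.indicator w)) {ε : ℝ} (hε : 0 < ε) (N₀ : ℕ) :
    ∃ N : ℕ, N₀ ≤ N ∧ (N : ℝ) / (√ (Real.log N) * (Real.log (Real.log N)) ^ (1 + ε)) ≤ cnt B N := by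
  by_contra hcon
  push Not at hcon
  apply hB
  have hg : ∀ n, 0 ≤ B.indicator w n := fun n => Set.indicator_nonneg (fun m _ => w_nonneg m) n
  have hl2 : 0 < Real.log 2 := Real.log_pos (by norm_num)
  have hl2' := Real.log_two_gt_d9
  have hl2'' := Real.log_two_lt_d9
  set K : ℝ := 2 * 2 ^ (1 + ε) / Real.log 2 with hK
  have hK0 : 0 < K := by positivity
  set j0 : ℕ := max N₀ 4 with hj0
  have hblock : ∀ j, j0 ≤ j → ∑ n ∈ Ico (2 ^ j) (2 ^ (j + 1)), B.indicator w n
      ≤ K * (1 / ((j : ℝ) * (Real.log (j + 1)) ^ (1 + ε))) := by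
    intro j hj
    have hj4 : 4 ≤ j := (le_max_right _ _).trans hj
    have hjN : N₀ ≤ j := (le_max_left _ _).trans hj
    have hjR : (4 : ℝ) ≤ j := by exact_mod_cast hj4
    have h1 := block_le B (j := j) (by omega)
    have h2 := hcon (2 ^ (j + 1)) (hjN.trans ((Nat.le_succ j).trans Nat.lt_two_pow_self.le))
    have e1 : (((2 ^ (j + 1) : ℕ)) : ℝ) = 2 ^ (j + 1) := by push_cast; ring
    have e2 : Real.log ((2 : ℝ) ^ (j + 1)) = ((j : ℝ) + 1) * Real.log 2 := by
      rw [Real.log_pow]; push_cast; ring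
    rw [e1, e2] at h2
    refine h1.trans ?_
    have h3 : cnt B (2 ^ (j + 1)) * (1 / (2 ^ j * √ (j * Real.log 2)))
        ≤ 2 ^ (j + 1) / (√ (((j : ℝ) + 1) * Real.log 2) * (Real.log (((j : ℝ) + 1) * Real.log 2)) ^ (1 + ε))
          * (1 / (2 ^ j * √ (j * Real.log 2))) :=
      mul_le_mul_of_nonneg_right h2.le (by positivity)
    refine h3.trans ?_
    -- the logarithm
    have hlj : 0 < Real.log ((j : ℝ) + 1) := Real.log_pos (by linarith)
    have h4 : 1 / 2 * Real.log ((j : ℝ) + 1) ≤ Real.log (((j : ℝ) + 1) * Real.log 2) := by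
      have h5 : ((j : ℝ) + 1) ≤ (((j : ℝ) + 1) * Real.log 2) ^ 2 := by
        have h6 : 0.48 ≤ Real.log 2 ^ 2 := by nlinarith
        have h7 : ((j : ℝ) + 1) * 0.48 ≤ ((j : ℝ) + 1) * Real.log 2 ^ 2 := mul_le_mul_of_nonneg_left h6 (by linarith)
        have h8 : 1 ≤ ((j : ℝ) + 1) * Real.log 2 ^ 2 := by linarith
        have h9 := mul_le_mul_of_nonneg_left h8 (show (0 : ℝ) ≤ (j : ℝ) + 1 by linarith)
        have e3 : (((j : ℝ) + 1) * Real.log 2) ^ 2 = ((j : ℝ) + 1) * (((j : ℝ) + 1) * Real.log 2 ^ 2) := by ring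
        rw [e3]
        linarith
      have h6 := Real.log_le_log (by linarith) h5
      rw [Real.log_pow] at h6
      push_cast at h6
      linarith
    have h5 : (1 / 2 * Real.log ((j : ℝ) + 1)) ^ (1 + ε) ≤ (Real.log (((j : ℝ) + 1) * Real.log 2)) ^ (1 + ε) :=
      Real.rpow_le_rpow (by positivity) h4 (by linarith)
    have h6 : (1 / 2 * Real.log ((j : ℝ) + 1)) ^ (1 + ε) = (Real.log ((j : ℝ) + 1)) ^ (1 + ε) / 2 ^ (1 + ε) := by
      rw [Real.mul_rpow (by norm_num) hlj.le, Real.div_rpow (by norm_num) (by norm_num), Real.one_rpow]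
      ring
    have hsq : √ ((j : ℝ) * Real.log 2) ≤ √ (((j : ℝ) + 1) * Real.log 2) :=
      Real.sqrt_le_sqrt (mul_le_mul_of_nonneg_right (by linarith) hl2.le)
    have hs0 : 0 < √ ((j : ℝ) * Real.log 2) := Real.sqrt_pos.2 (by positivity)
    have hsq2 : √ ((j : ℝ) * Real.log 2) * √ ((j : ℝ) * Real.log 2) = j * Real.log 2 := Real.mul_self_sqrt (by positivity)
    have hlp : 0 < (Real.log ((j : ℝ) + 1)) ^ (1 + ε) := by positivity
    have h7 : 2 ^ (j + 1) / (√ (((j : ℝ) + 1) * Real.log 2) * (Real.log (((j : ℝ) + 1) * Real.log 2)) ^ (1 + ε))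
        ≤ 2 ^ (j + 1) / (√ ((j : ℝ) * Real.log 2) * ((Real.log ((j : ℝ) + 1)) ^ (1 + ε) / 2 ^ (1 + ε))) := by
      apply div_le_div_of_nonneg_left (by positivity) (by positivity)
      apply mul_le_mul hsq _ (by positivity) (by positivity)
      rw [← h6]; exact h5
    have h8 := mul_le_mul_of_nonneg_right h7 (show 0 ≤ 1 / ((2 : ℝ) ^ j * √ (j * Real.log 2)) by positivity)
    refine h8.trans (le_of_eq ?_)
    have e4 : 2 ^ (j + 1) / (√ ((j : ℝ) * Real.log 2) * ((Real.log ((j : ℝ) + 1)) ^ (1 + ε) / 2 ^ (1 + ε)))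
        * (1 / ((2 : ℝ) ^ j * √ (j * Real.log 2)))
        = 2 * 2 ^ (1 + ε) / ((√ ((j : ℝ) * Real.log 2) * √ ((j : ℝ) * Real.log 2)) * (Real.log ((j : ℝ) + 1)) ^ (1 + ε)) := by
      rw [pow_succ]
      field_simp
    rw [e4, hsq2, hK]
    field_simp
  -- partial sums
  have hsum := sum_log hε
  set T := ∑' j : ℕ, 1 / ((j : ℝ) * (Real.log (j + 1)) ^ (1 + ε)) with hT
  have hnn : ∀ n : ℕ, 0 ≤ 1 / ((n : ℝ) * (Real.log (n + 1)) ^ (1 + ε)) := by
    intro n
    have : 0 ≤ Real.log ((n : ℝ) + 1) := Real.log_nonneg (by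
      have : (0 : ℝ) ≤ n := Nat.cast_nonneg n
      linarith)
    positivity
  have hpart : ∀ J, j0 ≤ J → ∑ n ∈ range (2 ^ J), B.indicator w n
      ≤ ∑ n ∈ range (2 ^ j0), B.indicator w n + K * ∑ j ∈ Ico j0 J, 1 / ((j : ℝ) * (Real.log (j + 1)) ^ (1 + ε)) := by
    intro J hJ
    induction J, hJ using Nat.le_induction with
    | base => simp
    | succ J hJ ih =>
      rw [sum_Ico_succ_top hJ, mul_add, ← add_assoc]
      have h1 := hblock J hJ
      have h2 : ∑ n ∈ range (2 ^ (J + 1)), B.indicator w n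
          = ∑ n ∈ range (2 ^ J), B.indicator w n + ∑ n ∈ Ico (2 ^ J) (2 ^ (J + 1)), B.indicator w n := by
        rw [range_eq_Ico, range_eq_Ico, sum_Ico_consecutive _ (Nat.zero_le _) (Nat.pow_le_pow_right (by norm_num) (Nat.le_succ J))]
      rw [h2]
      linarith
  apply summable_of_sum_range_le (c := ∑ n ∈ range (2 ^ j0), B.indicator w n + K * T) hg
  intro n
  have h1 : ∑ i ∈ range n, B.indicator w i ≤ ∑ i ∈ range (2 ^ (max j0 n)), B.indicator w i := by
    apply sum_le_sum_of_subset_of_nonneg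
    · intro i hi
      rw [mem_range] at hi ⊢
      have h2 : n < 2 ^ n := Nat.lt_two_pow_self
      have h3 : 2 ^ n ≤ 2 ^ (max j0 n) := Nat.pow_le_pow_right (by norm_num) (le_max_right _ _)
      omega
    · intro i _ _; exact hg i
  have h2 := hpart (max j0 n) (le_max_left _ _)
  have h3 : ∑ j ∈ Ico j0 (max j0 n), 1 / ((j : ℝ) * (Real.log (j + 1)) ^ (1 + ε)) ≤ T :=
    hsum.sum_le_tsum _ (fun i _ => hnn i)
  have h4 := mul_le_mul_of_nonneg_left h3 hK0.le
  linarith

end Pool.Agent.H82.BS
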