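import Pool.Graph.R_seed8.Y965.SI.Bin

/-! The geometric walk: comparison of a function of the end point with the sum of costs of the levels. -/

set_option autoImplicit false

namespace Pool.Agent.H82.BS

open Pool.Agent.H320R2.PD Pool.Agent.Y965.SI Finset

theorem mom2 (cap k : ℕ) : ∑ w ∈ FW cap k, wwt w * ((w.sum : ℝ) - 2 * k) ^ 2 ≤ 2 * (k : ℝ) := by
  have h := quad_iter cap 1 (2 * k) zero_le_one k 0 le_rfl 0
  rw [Pn_words] at h
  have e : ∑ w ∈ FW cap k, wwt w * (1 * (((0 + w.sum : ℕ) : ℝ) - 2 * k) ^ 2 + 0)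
      = ∑ w ∈ FW cap k, wwt w * ((w.sum : ℝ) - 2 * k) ^ 2 := by
    apply sum_congr rfl
    intro w _
    rw [zero_add]; ring
  rw [e] at h
  refine h.trans (le_of_eq ?_)
  push_cast; ring

/-- the distance from the level `l` to the starting level -/
noncomputable def dst (k l : ℕ) : ℝ := if 2 * k ≤ l then (l : ℝ) + 1 - 2 * k else 2 * k - (l : ℝ)

theorem dst_nonneg (k l : ℕ) : 0 ≤ dst k l := by
  unfold dst
  split_ifs with h
  · have : (2 * k : ℝ) ≤ l := by exact_mod_cast h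
    linarith
  · push Not at h
    have : (l : ℝ) ≤ 2 * k := by exact_mod_cast h.le
    linarith

theorem walk {cap k h : ℕ} (hk : 1 ≤ k) (hh : 1 ≤ h) (lam φ : ℕ → ℝ) (hlam : ∀ l, 0 ≤ lam l)
    (h1 : ∀ T, φ T ≤ 2) (h2 : ∀ T, 2 * k ≤ T → T ≤ 2 * k + h → φ T ≤ ∑ l ∈ Ico (2 * k) T, lam l)
    (h3 : ∀ T, T ≤ 2 * k → 2 * k - h ≤ T → φ T ≤ ∑ l ∈ Ico T (2 * k), lam l) :
    ∑ w ∈ FW cap k, wwt w * φ w.sum
      ≤ ∑ l ∈ Ico (2 * k - h) (2 * k + h), 4 * (k : ℝ) / (2 * k + dst k l ^ 2) * lam l + 4 * k / (h : ℝ) ^ 2 := by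
  have hkR : (1 : ℝ) ≤ k := by exact_mod_cast hk
  have hhR : (1 : ℝ) ≤ h := by exact_mod_cast hh
  have hden : ∀ l, 0 < 2 * (k : ℝ) + dst k l ^ 2 := fun l => by positivity
  -- pointwise
  have hpt : ∀ T : ℕ, φ T ≤ ∑ l ∈ Ico (2 * k - h) (2 * k + h),
      (lam l / (2 * k + dst k l ^ 2)) * (((T : ℝ) - 2 * k) ^ 2 + 2 * k) + 2 / (h : ℝ) ^ 2 * ((T : ℝ) - 2 * k) ^ 2 := by
    intro T
    have hnn : ∀ l ∈ Ico (2 * k - h) (2 * k + h), 0 ≤ (lam l / (2 * k + dst k l ^ 2)) * (((T : ℝ) - 2 * k) ^ 2 + 2 * k) := by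
      intro l _
      have := hden l
      have := hlam l
      positivity
    have hnn2 : 0 ≤ 2 / (h : ℝ) ^ 2 * ((T : ℝ) - 2 * k) ^ 2 := by positivity
    have key : ∀ l, dst k l ^ 2 ≤ ((T : ℝ) - 2 * k) ^ 2 → lam l ≤ (lam l / (2 * k + dst k l ^ 2)) * (((T : ℝ) - 2 * k) ^ 2 + 2 * k) := by
      intro l hl
      rw [div_mul_eq_mul_div, le_div_iff₀ (hden l)]
      apply mul_le_mul_of_nonneg_left _ (hlam l)
      linarith
    by_cases hT1 : 2 * k + h < T
    · have h4 : (2 * k : ℝ) + h < T := by exact_mod_cast hT1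
      have h5 : (h : ℝ) ^ 2 ≤ ((T : ℝ) - 2 * k) ^ 2 := pow_le_pow_left₀ (by linarith) (by linarith) 2
      have h6 : 2 ≤ 2 / (h : ℝ) ^ 2 * ((T : ℝ) - 2 * k) ^ 2 := by
        rw [div_mul_eq_mul_div, le_div_iff₀ (by positivity)]
        linarith
      have h7 := sum_nonneg hnn
      linarith [h1 T]
    by_cases hT2 : T < 2 * k - h
    · have h4 : T + h < 2 * k := by omega
      have h4' : (T : ℝ) + h < 2 * k := by exact_mod_cast h4
      have h5 : (h : ℝ) ^ 2 ≤ ((T : ℝ) - 2 * k) ^ 2 := by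
        have : ((T : ℝ) - 2 * k) ^ 2 = (2 * k - (T : ℝ)) ^ 2 := by ring
        rw [this]
        exact pow_le_pow_left₀ (by linarith) (by linarith) 2
      have h6 : 2 ≤ 2 / (h : ℝ) ^ 2 * ((T : ℝ) - 2 * k) ^ 2 := by
        rw [div_mul_eq_mul_div, le_div_iff₀ (by positivity)]
        linarith
      have h7 := sum_nonneg hnn
      linarith [h1 T]
    push Not at hT1 hT2
    rcases le_total (2 * k) T with hT | hT
    · have h4 := h2 T hT hT1
      have h5 : ∑ l ∈ Ico (2 * k) T, lam l ≤ ∑ l ∈ Ico (2 * k) T,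
          (lam l / (2 * k + dst k l ^ 2)) * (((T : ℝ) - 2 * k) ^ 2 + 2 * k) := by
        apply sum_le_sum
        intro l hl
        rw [mem_Ico] at hl
        apply key
        unfold dst
        rw [if_pos hl.1]
        have h6 : (2 * k : ℝ) ≤ l := by exact_mod_cast hl.1
        have h7 : (l : ℝ) + 1 ≤ T := by exact_mod_cast hl.2
        exact pow_le_pow_left₀ (by linarith) (by linarith) 2
      have h6 : ∑ l ∈ Ico (2 * k) T, (lam l / (2 * k + dst k l ^ 2)) * (((T : ℝ) - 2 * k) ^ 2 + 2 * k)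
          ≤ ∑ l ∈ Ico (2 * k - h) (2 * k + h), (lam l / (2 * k + dst k l ^ 2)) * (((T : ℝ) - 2 * k) ^ 2 + 2 * k) := by
        apply sum_le_sum_of_subset_of_nonneg
        · intro l hl
          rw [mem_Ico] at hl ⊢
          omega
        · intro l hl _; exact hnn l hl
      linarith
    · have h4 := h3 T hT hT2
      have h5 : ∑ l ∈ Ico T (2 * k), lam l ≤ ∑ l ∈ Ico T (2 * k),
          (lam l / (2 * k + dst k l ^ 2)) * (((T : ℝ) - 2 * k) ^ 2 + 2 * k) := by
        apply sum_le_sum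
        intro l hl
        rw [mem_Ico] at hl
        apply key
        unfold dst
        rw [if_neg (by omega)]
        have h6 : (l : ℝ) ≤ 2 * k := by exact_mod_cast hl.2.le
        have h7 : (T : ℝ) ≤ l := by exact_mod_cast hl.1
        have : ((T : ℝ) - 2 * k) ^ 2 = (2 * k - (T : ℝ)) ^ 2 := by ring
        rw [this]
        exact pow_le_pow_left₀ (by linarith) (by linarith) 2
      have h6 : ∑ l ∈ Ico T (2 * k), (lam l / (2 * k + dst k l ^ 2)) * (((T : ℝ) - 2 * k) ^ 2 + 2 * k)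
          ≤ ∑ l ∈ Ico (2 * k - h) (2 * k + h), (lam l / (2 * k + dst k l ^ 2)) * (((T : ℝ) - 2 * k) ^ 2 + 2 * k) := by
        apply sum_le_sum_of_subset_of_nonneg
        · intro l hl
          rw [mem_Ico] at hl ⊢
          omega
        · intro l hl _; exact hnn l hl
      linarith
  -- sum over the words
  have hm := mom2 cap k
  have hs := sum_wwt_le cap k
  have hm2 : ∑ w ∈ FW cap k, wwt w * (((w.sum : ℝ) - 2 * k) ^ 2 + 2 * k) ≤ 4 * (k : ℝ) := by
    have e : ∑ w ∈ FW cap k, wwt w * (((w.sum : ℝ) - 2 * k) ^ 2 + 2 * k)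
        = ∑ w ∈ FW cap k, wwt w * ((w.sum : ℝ) - 2 * k) ^ 2 + (∑ w ∈ FW cap k, wwt w) * (2 * k) := by
      rw [sum_mul, ← sum_add_distrib]
      apply sum_congr rfl
      intro w _; ring
    rw [e]
    have : (∑ w ∈ FW cap k, wwt w) * (2 * k) ≤ 1 * (2 * (k : ℝ)) := mul_le_mul_of_nonneg_right hs (by positivity)
    linarith
  calc ∑ w ∈ FW cap k, wwt w * φ w.sum
      ≤ ∑ w ∈ FW cap k, wwt w * (∑ l ∈ Ico (2 * k - h) (2 * k + h),
      (lam l / (2 * k + dst k l ^ 2)) * (((w.sum : ℝ) - 2 * k) ^ 2 + 2 * k) + 2 / (h : ℝ) ^ 2 * ((w.sum : ℝ) - 2 * k) ^ 2) :=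
        sum_le_sum fun w _ => mul_le_mul_of_nonneg_left (hpt _) (by unfold wwt; positivity)
    _ = ∑ l ∈ Ico (2 * k - h) (2 * k + h), (lam l / (2 * k + dst k l ^ 2)) *
          ∑ w ∈ FW cap k, wwt w * (((w.sum : ℝ) - 2 * k) ^ 2 + 2 * k)
        + 2 / (h : ℝ) ^ 2 * ∑ w ∈ FW cap k, wwt w * ((w.sum : ℝ) - 2 * k) ^ 2 := by
        simp_rw [mul_add (wwt _) (∑ l ∈ _, _), mul_sum]
        rw [sum_add_distrib, sum_comm]
        congr 1
        · apply sum_congr rfl
          intro l _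
          apply sum_congr rfl
          intro w _
          ring
        · apply sum_congr rfl
          intro w _
          ring
    _ ≤ ∑ l ∈ Ico (2 * k - h) (2 * k + h), (lam l / (2 * k + dst k l ^ 2)) * (4 * k)
        + 2 / (h : ℝ) ^ 2 * (2 * k) := by
        apply add_le_add
        · apply sum_le_sum
          intro l _
          apply mul_le_mul_of_nonneg_left hm2
          have := hden l
          have := hlam l
          positivity
        · exact mul_le_mul_of_nonneg_left hm (by positivity)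
    _ = _ := by
        congr 1
        · apply sum_congr rfl
          intro l _
          ring
        · ring

end Pool.Agent.H82.BS
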