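import Pool.Graph.R_seed8.Y965.SI.Fin
import Pool.Agent.H82.BS.Stage
import Pool.Agent.H82.BS.Walk

/-! The distance of the profiles at two places, the cost of a level, and one stage. -/

set_option autoImplicit false

namespace Pool.Agent.H82.BS

open Pool.Agent.H320R2.PD Pool.Agent.H499R2.ND Pool.Agent.H499R2.CO Pool.Agent.Y965.SI Finset

/-- the average of `f` over the odd integers of the `i`-th of the `I` cells of `[A, 2A)` -/
noncomputable def uu (f : ℤ → ℝ) (I : ℕ) (A : ℝ) (i : ℕ) : ℝ := av f (A * (I + i) / I) (A * (I + (i + 1)) / I)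

/-- the distance of the profiles at `A` and `B` -/
noncomputable def Dist (f : ℤ → ℝ) (I : ℕ) (A B : ℝ) : ℝ := 1 / (I : ℝ) * ∑ i ∈ range I, |uu f I A i - uu f I B i|

variable {f : ℤ → ℝ} {I : ℕ}

theorem Dist_nonneg (f : ℤ → ℝ) (I : ℕ) (A B : ℝ) : 0 ≤ Dist f I A B := by
  unfold Dist; positivity

theorem Dist_tri (f : ℤ → ℝ) (I : ℕ) (A B C : ℝ) : Dist f I A C ≤ Dist f I A B + Dist f I B C := by
  unfold Dist
  rw [← mul_add, ← sum_add_distrib]
  apply mul_le_mul_of_nonneg_left _ (by positivity)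
  exact sum_le_sum fun i _ => abs_sub_le _ _ _

theorem Dist_comm (f : ℤ → ℝ) (I : ℕ) (A B : ℝ) : Dist f I A B = Dist f I B A := by
  unfold Dist
  congr 1
  exact sum_congr rfl fun i _ => abs_sub_comm _ _

theorem Dist_self (f : ℤ → ℝ) (I : ℕ) (A : ℝ) : Dist f I A A = 0 := by
  unfold Dist
  simp

theorem cell_le {A : ℝ} (hA : 0 ≤ A) (i : ℕ) : A * (I + (i : ℝ)) / I ≤ A * (I + ((i : ℝ) + 1)) / I := by
  apply div_le_div_of_nonneg_right _ (Nat.cast_nonneg I)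
  apply mul_le_mul_of_nonneg_left _ hA
  linarith

theorem cell_len {A : ℝ} (hI : 1 ≤ I) (i : ℕ) : A * (I + ((i : ℝ) + 1)) / I - A * (I + (i : ℝ)) / I = A / I := by
  have : (I : ℝ) ≠ 0 := by positivity
  field_simp
  ring

theorem uu_abs (hf : ∀ x, |f x| ≤ 1) {A : ℝ} (hA : 0 ≤ A) (i : ℕ) : |uu f I A i| ≤ 1 :=
  av_abs hf (cell_le hA i)

theorem Dist_le_two (hf : ∀ x, |f x| ≤ 1) (hI : 1 ≤ I) {A B : ℝ} (hA : 0 ≤ A) (hB : 0 ≤ B) : Dist f I A B ≤ 2 := by
  unfold Dist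
  have hI0 : (0 : ℝ) < I := by exact_mod_cast hI
  have h : ∑ i ∈ range I, |uu f I A i - uu f I B i| ≤ ∑ i ∈ range I, (2 : ℝ) := by
    apply sum_le_sum
    intro i _
    have h1 := uu_abs hf hA i (I := I)
    have h2 := uu_abs hf hB i (I := I)
    have h3 := abs_sub (uu f I A i) (uu f I B i)
    linarith
  rw [sum_const, card_range, nsmul_eq_mul] at h
  rw [one_div, inv_mul_le_iff₀ hI0]
  exact h

/-- the cost of the level `[Y, 2Y)` -/
noncomputable def lam (c : ℤ → ℝ) (C₀ : ℝ) (I : ℕ) (Y : ℝ) : ℝ := (AS c Y (2 * Y) + (C₀ + 1) * I) / Y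

/-- the cost function -/
def LC (f c : ℤ → ℝ) (C₀ : ℝ) : Prop :=
  (∀ m, 0 ≤ c m) ∧ 0 ≤ C₀ ∧ ∀ a b : ℝ, 0 < a → a ≤ b → |OS f (2 * a) (2 * b) - 2 * OS f a b| ≤ AS c a b + C₀

theorem AS_nonneg {c : ℤ → ℝ} (hc : ∀ m, 0 ≤ c m) (a b : ℝ) : 0 ≤ AS c a b := by
  unfold AS; exact sum_nonneg fun m _ => hc m

theorem lam_nonneg {c : ℤ → ℝ} {C₀ : ℝ} (hc : ∀ m, 0 ≤ c m) (hC : 0 ≤ C₀) (I : ℕ) {Y : ℝ} (hY : 0 < Y) :
    0 ≤ lam c C₀ I Y := by
  unfold lam
  have := AS_nonneg hc Y (2 * Y)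
  positivity

theorem Dist_level (hf : ∀ x, |f x| ≤ 1) {c : ℤ → ℝ} {C₀ : ℝ} (hc : LC f c C₀) (hI : 1 ≤ I) {Y : ℝ} (hY : 0 < Y) :
    Dist f I (2 * Y) Y ≤ lam c C₀ I Y := by
  obtain ⟨hc0, hC0, hc⟩ := hc
  have hI0 : (0 : ℝ) < I := by exact_mod_cast hI
  set u : ℕ → ℝ := fun i => Y * (I + i) / I with hu
  have humono : Monotone u := by
    intro i j hij
    have : (i : ℝ) ≤ j := by exact_mod_cast hij
    rw [hu]
    simp only
    apply div_le_div_of_nonneg_right _ hI0.le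
    apply mul_le_mul_of_nonneg_left _ hY.le
    linarith
  have hu0 : u 0 = Y := by
    rw [hu]; simp only; push_cast; field_simp; ring
  have huI : u I = 2 * Y := by
    rw [hu]; simp only; field_simp; ring
  have hu1 : ∀ i : ℕ, Y * (I + ((i : ℝ) + 1)) / I = u (i + 1) := by
    intro i; rw [hu]; simp only; push_cast; ring
  have hupos : ∀ i, 0 < u i := fun i => by rw [hu]; positivity
  set ℓ : ℝ := Y / I with hℓ
  have hℓ0 : 0 < ℓ := by positivity
  have hcell : ∀ i ∈ range I, |uu f I (2 * Y) i - uu f I Y i| ≤ (AS c (u i) (u (i + 1)) + (C₀ + 1)) / ℓ := by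
    intro i _
    have h1 := hc (u i) (u (i + 1)) (hupos i) (humono (Nat.le_succ i))
    have hlen : u (i + 1) - u i = ℓ := by
      rw [← hu1, hℓ]; exact cell_len hI i
    have h2 := OS_abs hf (humono (Nat.le_succ i))
    have e1 : uu f I (2 * Y) i = OS f (2 * u i) (2 * u (i + 1)) / (ℓ + 1) := by
      unfold uu av
      have e2 : 2 * Y * (I + (i : ℝ)) / I = 2 * u i := by rw [hu]; simp only; ring
      have e3 : 2 * Y * (I + ((i : ℝ) + 1)) / I = 2 * u (i + 1) := by rw [← hu1]; ring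
      rw [e2, e3]
      congr 1
      linarith
    have e2 : uu f I Y i = OS f (u i) (u (i + 1)) / (ℓ / 2 + 1) := by
      unfold uu av
      rw [hu1]
      have : Y * (I + (i : ℝ)) / I = u i := rfl
      rw [this, hlen]
    rw [e1, e2]
    set x := OS f (2 * u i) (2 * u (i + 1)) with hx
    set y := OS f (u i) (u (i + 1)) with hy
    have hlen2 : u (i + 1) - u i = ℓ := hlen
    have e3 : x / (ℓ + 1) - y / (ℓ / 2 + 1) = ((x - 2 * y) + y / (ℓ / 2 + 1)) / (ℓ + 1) := by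
      field_simp
      ring
    have h3 : |y / (ℓ / 2 + 1)| ≤ 1 := by
      rw [abs_div, abs_of_pos (by positivity : 0 < ℓ / 2 + 1), div_le_one (by positivity)]
      rw [← hlen2]; exact h2
    rw [e3, abs_div, abs_of_pos (by positivity : 0 < ℓ + 1)]
    have h4 : |x - 2 * y + y / (ℓ / 2 + 1)| ≤ AS c (u i) (u (i + 1)) + (C₀ + 1) := by
      refine (abs_add_le _ _).trans ?_
      linarith
    have h5 := AS_nonneg hc0 (u i) (u (i + 1))
    calc |x - 2 * y + y / (ℓ / 2 + 1)| / (ℓ + 1) ≤ (AS c (u i) (u (i + 1)) + (C₀ + 1)) / (ℓ + 1) :=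
          div_le_div_of_nonneg_right h4 (by positivity)
      _ ≤ (AS c (u i) (u (i + 1)) + (C₀ + 1)) / ℓ := by
          apply div_le_div_of_nonneg_left _ hℓ0 (by linarith)
          positivity
  unfold Dist lam
  have hsum := sum_le_sum hcell
  rw [← sum_div, sum_add_distrib, AS_cells _ _ humono, hu0, huI, sum_const, card_range, nsmul_eq_mul] at hsum
  have h6 := mul_le_mul_of_nonneg_left hsum (show 0 ≤ 1 / (I : ℝ) by positivity)
  refine h6.trans (le_of_eq ?_)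
  rw [hℓ]
  field_simp

theorem Dist_down (hf : ∀ x, |f x| ≤ 1) {c : ℤ → ℝ} {C₀ : ℝ} (hc : LC f c C₀) (hI : 1 ≤ I) {B : ℝ} (hB : 0 < B)
    (T : ℕ) : ∀ T', T ≤ T' → Dist f I (B / 2 ^ T) (B / 2 ^ T') ≤ ∑ l ∈ Ico T T', lam c C₀ I (B / 2 ^ (l + 1)) := by
  intro T' hT'
  induction T', hT' using Nat.le_induction with
  | base => rw [Dist_self]; simp
  | succ n hn ih =>
    rw [sum_Ico_succ_top hn]
    have h1 := Dist_tri f I (B / 2 ^ T) (B / 2 ^ n) (B / 2 ^ (n + 1))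
    have h2 := Dist_level hf hc hI (Y := B / 2 ^ (n + 1)) (by positivity)
    have e : 2 * (B / 2 ^ (n + 1)) = B / 2 ^ n := by rw [pow_succ]; field_simp
    rw [e] at h2
    linarith

/-- one stage for the profiles -/
theorem Dist_stage {d : ℤ} {C : ℝ} {k : ℕ} {f : ℤ → ℝ} (hf : InvF d f) (hI : 1 ≤ I)
    (hm : 1 - ∑ w ∈ FW (3 * k) k, wwt w ≤ C / rt4 k)
    (hst : ∀ a b : ℝ, a ≤ b → 10 * (k : ℝ) ≤ Real.log (b - a) →
      |av f a b - ∑ w ∈ FW (3 * k) k, wwt w * av f (a * 3 ^ k / 2 ^ w.sum) (b * 3 ^ k / 2 ^ w.sum)| ≤ C / rt4 k)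
    {A : ℝ} (hA : 0 < A) (hL : 10 * (k : ℝ) ≤ Real.log (A / I)) :
    Dist f I A (A * 3 ^ k / 2 ^ (2 * k)) ≤ 2 * (C / rt4 k)
      + ∑ w ∈ FW (3 * k) k, wwt w * Dist f I (A * 3 ^ k / 2 ^ w.sum) (A * 3 ^ k / 2 ^ (2 * k)) := by
  have hI0 : (0 : ℝ) < I := by exact_mod_cast hI
  set B := A * 3 ^ k / 2 ^ (2 * k) with hB
  have hB0 : 0 < B := by positivity
  have hcell : ∀ i ∈ range I, |uu f I A i - uu f I B i| ≤ 2 * (C / rt4 k)
      + ∑ w ∈ FW (3 * k) k, wwt w * |uu f I (A * 3 ^ k / 2 ^ w.sum) i - uu f I B i| := by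
    intro i _
    have h1 := hst (A * (I + (i : ℝ)) / I) (A * (I + ((i : ℝ) + 1)) / I) (cell_le hA.le i) (by
      rw [cell_len hI]; exact hL)
    have e1 : ∀ (x : ℝ) (s : ℕ), A * x / I * 3 ^ k / 2 ^ s = A * 3 ^ k / 2 ^ s * x / I := by
      intro x s
      field_simp
    have e2 : ∀ w : List ℕ, av f (A * (I + (i : ℝ)) / I * 3 ^ k / 2 ^ w.sum) (A * (I + ((i : ℝ) + 1)) / I * 3 ^ k / 2 ^ w.sum)
        = uu f I (A * 3 ^ k / 2 ^ w.sum) i := by
      intro w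
      unfold uu
      rw [e1, e1]
    simp_rw [e2] at h1
    have e3 : av f (A * (I + (i : ℝ)) / I) (A * (I + ((i : ℝ) + 1)) / I) = uu f I A i := rfl
    rw [e3] at h1
    set S := ∑ w ∈ FW (3 * k) k, wwt w * uu f I (A * 3 ^ k / 2 ^ w.sum) i with hS
    have h2 : |S - uu f I B i| ≤ C / rt4 k + ∑ w ∈ FW (3 * k) k, wwt w * |uu f I (A * 3 ^ k / 2 ^ w.sum) i - uu f I B i| := by
      have e4 : S - uu f I B i = ∑ w ∈ FW (3 * k) k, wwt w * (uu f I (A * 3 ^ k / 2 ^ w.sum) i - uu f I B i)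
          - (1 - ∑ w ∈ FW (3 * k) k, wwt w) * uu f I B i := by
        simp_rw [mul_sub]
        rw [sum_sub_distrib, ← sum_mul, hS]
        ring
      rw [e4]
      have h3 : |∑ w ∈ FW (3 * k) k, wwt w * (uu f I (A * 3 ^ k / 2 ^ w.sum) i - uu f I B i)|
          ≤ ∑ w ∈ FW (3 * k) k, wwt w * |uu f I (A * 3 ^ k / 2 ^ w.sum) i - uu f I B i| := by
        refine (abs_sum_le_sum_abs _ _).trans (le_of_eq ?_)
        apply sum_congr rfl
        intro w _
        rw [abs_mul, abs_of_nonneg (by unfold wwt; positivity)]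
      have h4 : |(1 - ∑ w ∈ FW (3 * k) k, wwt w) * uu f I B i| ≤ C / rt4 k := by
        rw [abs_mul]
        have h5 := uu_abs hf.1 hB0.le i (I := I)
        have h6 := sum_wwt_le (3 * k) k
        rw [abs_of_nonneg (by linarith : 0 ≤ 1 - ∑ w ∈ FW (3 * k) k, wwt w)]
        calc (1 - ∑ w ∈ FW (3 * k) k, wwt w) * |uu f I B i| ≤ (1 - ∑ w ∈ FW (3 * k) k, wwt w) * 1 :=
              mul_le_mul_of_nonneg_left h5 (by linarith)
          _ ≤ C / rt4 k := by linarith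
      have h7 := abs_sub (∑ w ∈ FW (3 * k) k, wwt w * (uu f I (A * 3 ^ k / 2 ^ w.sum) i - uu f I B i))
        ((1 - ∑ w ∈ FW (3 * k) k, wwt w) * uu f I B i)
      linarith
    have h8 := abs_sub_le (uu f I A i) S (uu f I B i)
    linarith
  unfold Dist
  have hsum := sum_le_sum hcell
  rw [sum_add_distrib, sum_const, card_range, nsmul_eq_mul, sum_comm] at hsum
  have h6 := mul_le_mul_of_nonneg_left hsum (show 0 ≤ 1 / (I : ℝ) by positivity)
  refine h6.trans (le_of_eq ?_)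
  rw [mul_add, mul_sum]
  congr 1
  · field_simp
  · apply sum_congr rfl
    intro w _
    rw [← mul_sum]
    ring

end Pool.Agent.H82.BS
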