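import Pool.Agent.H82.BS.Chain

/-! The lower bound for the weighted cost. -/

set_option autoImplicit false

namespace Pool.Agent.H82.BS

open Pool.Agent.H320R2.PD Pool.Agent.H499R2.ND Pool.Agent.H499R2.CO Pool.Agent.Y965.SI Finset

theorem lower {d : ℤ} (hd : Odd d) (hd3 : IsCoprime d 3) (hdd : d * d = 1) {C₀ e0 : ℝ} (hC₀ : 0 ≤ C₀) (he0 : 0 < e0)
    (he1 : e0 ≤ 1) :
    ∃ (c₁ L1 : ℝ), 0 < c₁ ∧ 1 ≤ L1 ∧ ∀ f c : ℤ → ℝ, InvF d f → LC f c C₀ → ∀ ℓ : ℝ, L1 ≤ ℓ →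
      (∀ Y : ℝ, 0 < Y → ℓ ≤ Real.log Y → e0 * Y / 2 ≤ OS (fun x => f x ^ 2) Y (2 * Y)) →
      ∀ A : ℝ, 0 < A → ℓ ≤ Real.log A →
      (∀ I : ℕ, 1 ≤ I → (I : ℝ) ≤ Real.exp ℓ → ∀ i < I, |uu f I A i| ≤ e0 / 8) →
      c₁ ≤ AS (wt c) (Real.exp (ℓ / 2)) A := by
  obtain ⟨θe, hθe, hθe1, Le, hLe, hen⟩ := energy hd hdd (show 0 < e0 / 2 by positivity) (by linarith)
  set θ : ℝ := θe / 4 with hθ
  have hθ0 : 0 < θ := by rw [hθ]; positivity
  have hθ1 : θ ≤ 1 / 4 := by rw [hθ]; linarith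
  obtain ⟨B, B2, L1, hB, hB2, hL1, hch⟩ := chain hd hd3 hdd hC₀ hθ0 hθ1
  refine ⟨e0 / (24 * B), max (max L1 (Le / θ)) (max (1 / θ) ((8 * B2 / e0) ^ 4)), by positivity,
    hL1.trans ((le_max_left _ _).trans (le_max_left _ _)), ?_⟩
  intro f c hf hc ℓ hℓ hE A hA hℓA htop
  have hℓ1 : L1 ≤ ℓ := ((le_max_left _ _).trans (le_max_left _ _)).trans hℓ
  have hℓ2 : Le / θ ≤ ℓ := ((le_max_right _ _).trans (le_max_left _ _)).trans hℓ
  have hℓ3 : 1 / θ ≤ ℓ := ((le_max_left _ _).trans (le_max_right _ _)).trans hℓ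
  have hℓ4 : (8 * B2 / e0) ^ 4 ≤ ℓ := ((le_max_right _ _).trans (le_max_right _ _)).trans hℓ
  rw [div_le_iff₀ hθ0] at hℓ2 hℓ3
  have hℓpos : 0 < ℓ := by linarith
  set X : ℝ := Real.exp ((1 - θ) * ℓ) with hX
  have hX1 : 1 ≤ X := Real.one_le_exp (by
    have : 0 ≤ 1 - θ := by linarith
    positivity)
  set I : ℕ := ⌊X⌋₊ with hI
  have hI1 : 1 ≤ I := by rw [hI, Nat.one_le_floor_iff]; exact hX1
  have hIR : (1 : ℝ) ≤ I := by exact_mod_cast hI1
  have hI0 : (0 : ℝ) < I := by linarith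
  have hIX : (I : ℝ) ≤ X := Nat.floor_le (by linarith)
  have hIX2 : X / 2 ≤ I := by
    have := Nat.lt_floor_add_one X
    rw [← hI] at this
    linarith
  have hlogI1 : Real.log I ≤ (1 - θ) * ℓ := by
    have := Real.log_le_log hI0 hIX
    rwa [hX, Real.log_exp] at this
  have hlogI2 : (1 - θ) * ℓ - Real.log 2 ≤ Real.log I := by
    have h1 := Real.log_le_log (by positivity) hIX2
    rwa [Real.log_div (by positivity) (by norm_num), hX, Real.log_exp] at h1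
  obtain ⟨A', hA', k1, k2, k3⟩ := hch f c hf hc ℓ hℓ1 I hI1 hIX A hA hℓA
  -- the bottom
  have hlog2 := Real.log_two_lt_d9
  have h1 := hen f hf A' I hA' hI1 (by
    rw [Real.log_div hA'.ne' hI0.ne']
    linarith) (by
    rw [Real.log_div hA'.ne' hI0.ne']
    have g1 : θe * ℓ ≤ θe * Real.log A' := mul_le_mul_of_nonneg_left k1 hθe.le
    have g2 : θe * ℓ = 4 * (θ * ℓ) := by rw [hθ]; ring
    linarith)
  have h2 := hE A' hA' k1
  have h3 : e0 ≤ 2 / A' * OS (fun x => f x ^ 2) A' (2 * A') := by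
    rw [div_mul_eq_mul_div, le_div_iff₀ hA']
    linarith
  have h4 : e0 / 2 ≤ 1 / (I : ℝ) * ∑ i ∈ range I, |uu f I A' i| := by
    have g1 : 1 / (I : ℝ) * ∑ i ∈ range I, av f (A' * (I + i) / I) (A' * (I + (i + 1)) / I) ^ 2
        ≤ 1 / (I : ℝ) * ∑ i ∈ range I, |uu f I A' i| := by
      apply mul_le_mul_of_nonneg_left _ (by positivity)
      apply sum_le_sum
      intro i _
      have g2 := uu_abs hf.1 hA'.le i (I := I)
      have g3 : av f (A' * (I + i) / I) (A' * (I + (i + 1)) / I) = uu f I A' i := rfl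
      rw [g3, ← sq_abs]
      nlinarith [abs_nonneg (uu f I A' i)]
    linarith
  have h5 : 1 / (I : ℝ) * ∑ i ∈ range I, |uu f I A' i| ≤ e0 / 8 + Dist f I A A' := by
    unfold Dist
    have g1 : ∑ i ∈ range I, |uu f I A' i| ≤ ∑ i ∈ range I, (e0 / 8 + |uu f I A i - uu f I A' i|) := by
      apply sum_le_sum
      intro i hi
      rw [mem_range] at hi
      have g2 := htop I hI1 (hIX.trans (Real.exp_le_exp.2 (by
        have : (1 - θ) * ℓ ≤ 1 * ℓ := mul_le_mul_of_nonneg_right (by linarith) hℓpos.le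
        linarith))) i hi
      have g3 := abs_sub_abs_le_abs_sub (uu f I A' i) (uu f I A i)
      rw [abs_sub_comm (uu f I A' i)] at g3
      linarith
    rw [sum_add_distrib, sum_const, card_range, nsmul_eq_mul] at g1
    have g2 := mul_le_mul_of_nonneg_left g1 (show 0 ≤ 1 / (I : ℝ) by positivity)
    refine g2.trans (le_of_eq ?_)
    field_simp
  have h6 : B2 / rt4 ℓ ≤ e0 / 8 := by
    have hr : 0 < rt4 ℓ := rt4_pos hℓpos
    have g1 : 8 * B2 / e0 ≤ rt4 ℓ := by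
      by_contra hcon
      push Not at hcon
      have : rt4 ℓ ^ 4 < (8 * B2 / e0) ^ 4 := pow_lt_pow_left₀ hcon hr.le (by norm_num)
      rw [rt4_pow hℓpos.le] at this
      linarith
    rw [div_le_iff₀ he0] at g1
    rw [div_le_iff₀ hr]
    linarith
  rw [div_le_iff₀ (by positivity)]
  linarith

end Pool.Agent.H82.BS
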