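import Pool.Agent.H82.BS.Dist
import Pool.Graph.R_seed8.Y965.SI.Par

/-! The cost of one stage, and the choice of its length. -/

set_option autoImplicit false

namespace Pool.Agent.H82.BS

open Pool.Agent.H320R2.PD Pool.Agent.H499R2.ND Pool.Agent.H499R2.CO Pool.Agent.Y965.SI Finset

/-- a primitive of `1 / (b + |y|) ^ 2` -/
noncomputable def Psi (b y : ℝ) : ℝ := if y < 0 then 1 / (b - y) else 2 / b - 1 / (b + y)

theorem Psi_nonneg {b : ℝ} (hb : 0 < b) (y : ℝ) : 0 ≤ Psi b y := by
  unfold Psi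
  split_ifs with h
  · have : 0 < b - y := by linarith
    positivity
  · push Not at h
    have h1 : 1 / (b + y) ≤ 1 / b := one_div_le_one_div_of_le hb (by linarith)
    have h2 : 0 < 1 / b := by positivity
    have h3 : 2 / b = 2 * (1 / b) := by ring
    linarith

theorem Psi_le {b : ℝ} (hb : 0 < b) (y : ℝ) : Psi b y ≤ 2 / b := by
  unfold Psi
  have h3 : 2 / b = 2 * (1 / b) := by ring
  have h2 : 0 < 1 / b := by positivity
  split_ifs with h
  · have h1 : 1 / (b - y) ≤ 1 / b := one_div_le_one_div_of_le hb (by linarith)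
    linarith
  · push Not at h
    have : 0 < 1 / (b + y) := by
      have : 0 < b + y := by linarith
      positivity
    linarith

theorem Psi_step {b g : ℝ} (hb : 0 < b) (hg : 0 < g) (y : ℝ) : g / (b + |y| + g) ^ 2 ≤ Psi b y - Psi b (y - g) := by
  unfold Psi
  rcases lt_or_ge y 0 with h | h
  · rw [if_pos h, if_pos (by linarith), abs_of_neg h]
    have h1 : 0 < b - y := by linarith
    have h2 : 0 < b - (y - g) := by linarith
    have e : 1 / (b - y) - 1 / (b - (y - g)) = g / ((b - y) * (b - (y - g))) := by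
      field_simp
      ring
    rw [e]
    apply div_le_div_of_nonneg_left hg.le (by positivity)
    have : (b + -y + g) ^ 2 = (b - (y - g)) * (b - (y - g)) := by ring
    rw [this]
    apply mul_le_mul_of_nonneg_right _ h2.le
    linarith
  · rw [if_neg (not_lt.2 h), abs_of_nonneg h]
    rcases lt_or_ge (y - g) 0 with h' | h'
    · rw [if_pos h']
      have h1 : 0 < b + y := by linarith
      have h2 : 0 < b - (y - g) := by linarith
      have e : 2 / b - 1 / (b + y) - 1 / (b - (y - g)) = y / (b * (b + y)) + (g - y) / (b * (b - (y - g))) := by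
        field_simp
        ring
      rw [e]
      have h3 : y / (b + y + g) ^ 2 ≤ y / (b * (b + y)) := by
        apply div_le_div_of_nonneg_left h (by positivity)
        nlinarith
      have h4 : (g - y) / (b + y + g) ^ 2 ≤ (g - y) / (b * (b - (y - g))) := by
        apply div_le_div_of_nonneg_left (by linarith) (by positivity)
        nlinarith
      have e2 : g / (b + y + g) ^ 2 = y / (b + y + g) ^ 2 + (g - y) / (b + y + g) ^ 2 := by ring
      linarith
    · rw [if_neg (not_lt.2 h')]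
      have h1 : 0 < b + y := by linarith
      have h2 : 0 < b + (y - g) := by linarith
      have e : 2 / b - 1 / (b + y) - (2 / b - 1 / (b + (y - g))) = g / ((b + (y - g)) * (b + y)) := by
        field_simp
        ring
      rw [e]
      apply div_le_div_of_nonneg_left hg.le (by positivity)
      nlinarith

theorem sum_inv_sq {b g : ℝ} (hb : 0 < b) (hg : 0 < g) (hgb : g ≤ b) (x : ℝ) {K N : ℕ} (hKN : K ≤ N) :
    ∑ k ∈ Ioc K N, 1 / (b + |x - g * k|) ^ 2 ≤ 8 / (g * b) := by
  have h1 : ∀ k : ℕ, 1 / (b + |x - g * (k + 1 : ℕ)|) ^ 2 ≤ 4 / g * (Psi b (g * (k + 1 : ℕ) - x) - Psi b (g * k - x)) := by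
    intro k
    have h2 := Psi_step hb hg (g * (k + 1 : ℕ) - x)
    have e1 : g * ((k + 1 : ℕ) : ℝ) - x - g = g * k - x := by push_cast; ring
    rw [e1] at h2
    set y := g * ((k + 1 : ℕ) : ℝ) - x with hy
    have e2 : |x - g * ((k + 1 : ℕ) : ℝ)| = |y| := by rw [hy, abs_sub_comm]
    rw [e2]
    have h3 : 0 < b + |y| := by positivity
    have h4 : 1 / (b + |y|) ^ 2 ≤ 4 / g * (g / (b + |y| + g) ^ 2) := by
      have e3 : 4 / g * (g / (b + |y| + g) ^ 2) = 4 / (b + |y| + g) ^ 2 := by
        field_simp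
      rw [e3, div_le_div_iff₀ (by positivity) (by positivity), one_mul]
      have h5 : b + |y| + g ≤ 2 * (b + |y|) := by
        have := abs_nonneg y
        linarith
      have h6 := pow_le_pow_left₀ (by positivity) h5 2
      linarith
    exact h4.trans (mul_le_mul_of_nonneg_left h2 (by positivity))
  have h2 : ∀ N, K ≤ N → ∑ k ∈ Ioc K N, 1 / (b + |x - g * k|) ^ 2 ≤ 4 / g * (Psi b (g * N - x) - Psi b (g * K - x)) := by
    intro N hN
    induction N, hN using Nat.le_induction with
    | base => simp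
    | succ n hn ih =>
      rw [Finset.sum_Ioc_succ_top hn]
      have := h1 n
      have e5 : 4 / g * (Psi b (g * ((n + 1 : ℕ) : ℝ) - x) - Psi b (g * K - x))
        = 4 / g * (Psi b (g * n - x) - Psi b (g * K - x)) + 4 / g * (Psi b (g * ((n + 1 : ℕ) : ℝ) - x) - Psi b (g * n - x)) := by ring
      rw [e5]
      linarith
  refine (h2 N hKN).trans ?_
  have h3 := Psi_nonneg hb (g * K - x)
  have h4 := Psi_le hb (g * N - x)
  have h5 : 4 / g * (Psi b (g * N - x) - Psi b (g * K - x)) ≤ 4 / g * (2 / b) :=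
    mul_le_mul_of_nonneg_left (by linarith) (by positivity)
  refine h5.trans (le_of_eq ?_)
  field_simp
  norm_num

theorem kappa_sum {g : ℝ} (hg : 0.39 ≤ g) (hg1 : g ≤ 1) (x : ℝ) {K : ℕ} (hK : 1 ≤ K) :
    ∑ k ∈ Ioc K (2 * K), 8 * (K : ℝ) / (4 * K + (x - g * k) ^ 2) ≤ 165 * √ K := by
  have hKR : (1 : ℝ) ≤ K := by exact_mod_cast hK
  have hK0 : (0 : ℝ) < K := by linarith
  set s := √ (K : ℝ) with hs
  have hs1 : 1 ≤ s := Real.one_le_sqrt.2 hKR
  have hs2 : s ^ 2 = K := Real.sq_sqrt hK0.le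
  have h1 := sum_inv_sq (b := 2 * s) (g := g) (by linarith) (by linarith) (by linarith) x (show K ≤ 2 * K by omega)
  have h2 : ∑ k ∈ Ioc K (2 * K), 8 * (K : ℝ) / (4 * K + (x - g * k) ^ 2)
      ≤ ∑ k ∈ Ioc K (2 * K), 16 * s ^ 2 * (1 / (2 * s + |x - g * k|) ^ 2) := by
    apply sum_le_sum
    intro k _
    set z := x - g * k with hz
    rw [mul_one_div, ← hs2, ← sq_abs z, div_le_div_iff₀ (by positivity) (by positivity)]
    have h3 : (2 * s + |z|) ^ 2 ≤ 2 * (4 * s ^ 2 + |z| ^ 2) := by nlinarith [sq_nonneg (2 * s - |z|)]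
    have h4 := mul_le_mul_of_nonneg_left h3 (show 0 ≤ 8 * s ^ 2 by positivity)
    linarith
  refine h2.trans ?_
  rw [← mul_sum]
  have h3 := mul_le_mul_of_nonneg_left h1 (show 0 ≤ 16 * s ^ 2 by positivity)
  refine h3.trans ?_
  have e : 16 * s ^ 2 * (8 / (g * (2 * s))) = 64 * s / g := by
    have : g ≠ 0 := by linarith
    field_simp
    ring
  rw [e, div_le_iff₀ (by linarith)]
  nlinarith

theorem AS_tele (G : ℤ → ℝ) {B : ℝ} (hB : 0 < B) (T : ℕ) : ∀ T', T ≤ T' →
    ∑ l ∈ Ico T T', AS G (B / 2 ^ (l + 1)) (B / 2 ^ l) = AS G (B / 2 ^ T') (B / 2 ^ T) := by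
  intro T' hT'
  induction T', hT' using Nat.le_induction with
  | base => unfold AS; simp
  | succ n hn ih =>
    rw [sum_Ico_succ_top hn, ih, add_comm]
    apply AS_add
    · apply div_le_div_of_nonneg_left hB.le (by positivity)
      exact pow_le_pow_right₀ (by norm_num) (Nat.le_succ n)
    · apply div_le_div_of_nonneg_left hB.le (by positivity)
      exact pow_le_pow_right₀ (by norm_num) hn

theorem AS_ext {G : ℤ → ℝ} (hG : ∀ m, 0 ≤ G m) {a b a' b' : ℝ} (h1 : a' ≤ a) (h2 : a ≤ b) (h3 : b ≤ b') :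
    AS G a b ≤ AS G a' b' := by
  have e1 := AS_add G h1 h2
  have e2 := AS_add G (h1.trans h2) h3
  have := AS_nonneg hG a' a
  have := AS_nonneg hG b b'
  linarith

theorem AS_sum {ι : Type*} (s : Finset ι) (G : ι → ℤ → ℝ) (a b : ℝ) :
    ∑ k ∈ s, AS (G k) a b = AS (fun m => ∑ k ∈ s, G k m) a b := by
  unfold AS
  rw [sum_comm]

end Pool.Agent.H82.BS
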