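import Pool.Agent.H82.BS.Cost

/-! One step down, with the choice of the number of steps by the pigeonhole principle. -/

set_option autoImplicit false

namespace Pool.Agent.H82.BS

open Pool.Agent.H320R2.PD Pool.Agent.H499R2.ND Pool.Agent.H499R2.CO Pool.Agent.Y965.SI Finset

theorem GG_sum {A : ℝ} {K : ℕ} (hK : 1 ≤ K) {c : ℤ → ℝ} (hc : ∀ m, 0 ≤ c m) (a b : ℝ) :
    ∑ k ∈ Ioc K (2 * K), AS (GG A K c k) a b ≤ 330 * √ K * AS (fun m => c m / |(m : ℝ)|) a b := by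
  rw [AS_sum, ← AS_const_mul]
  apply AS_mono
  intro m _ _
  have h1 := kappa_sum gg_bd.1 gg_bd.2 ((Real.log A - Real.log m) / Real.log 2) hK
  unfold GG
  rw [← sum_mul]
  have h2 : 0 ≤ 2 * c m / |(m : ℝ)| := by
    have := hc m
    positivity
  refine (mul_le_mul_of_nonneg_right h1 h2).trans (le_of_eq ?_)
  ring

/-- the weighted cost -/
noncomputable def wt (c : ℤ → ℝ) (m : ℤ) : ℝ := c m / (|(m : ℝ)| * √ (Real.log m))

theorem wt_nonneg {c : ℤ → ℝ} (hc : ∀ m, 0 ≤ c m) (m : ℤ) : 0 ≤ wt c m := by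
  unfold wt
  have := hc m
  positivity

theorem AS_wt {A : ℝ} {c : ℤ → ℝ} (hc : ∀ m, 0 ≤ c m) {a b : ℝ} (ha : 1 < a) (hb : b ≤ A) :
    AS (fun m => c m / |(m : ℝ)|) a b ≤ √ (Real.log A) * AS (wt c) a b := by
  rw [← AS_const_mul]
  apply AS_mono
  intro m hm1 hm2
  have hm0 : (0 : ℝ) < m := by linarith
  have h1 : 0 < Real.log m := Real.log_pos (by linarith)
  have h2 : Real.log m ≤ Real.log A := Real.log_le_log hm0 (by linarith)
  have h3 : √ (Real.log m) ≤ √ (Real.log A) := Real.sqrt_le_sqrt h2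
  have h4 : 0 < √ (Real.log m) := Real.sqrt_pos.2 h1
  unfold wt
  have hcm := hc m
  rw [abs_of_pos hm0, mul_div_assoc', div_le_div_iff₀ hm0 (by positivity)]
  have h5 := mul_le_mul_of_nonneg_left h3 (show 0 ≤ c m * m by positivity)
  linarith

theorem step {d : ℤ} (hd : Odd d) (hd3 : IsCoprime d 3) (hdd : d * d = 1) {C₀ θ : ℝ} (hC₀ : 0 ≤ C₀) (hθ : 0 < θ) (hθ1 : θ ≤ 1) :
    ∃ (B L1 : ℝ), 0 < B ∧ 1 ≤ L1 ∧ ∀ f c : ℤ → ℝ, InvF d f → LC f c C₀ → ∀ I : ℕ, 1 ≤ I → ∀ A : ℝ, 0 < A →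
      L1 ≤ Real.log A → θ * Real.log A ≤ Real.log (A / I) → ∃ A' : ℝ, 0 < A' ∧
        (1 - 0.03 * θ) * Real.log A ≤ Real.log A' ∧ Real.log A' ≤ (1 - θ / 160) * Real.log A ∧
        Dist f I A A' ≤ B / rt4 (Real.log A)
          + B * AS (wt c) (Real.exp ((1 - 0.035 * θ) * Real.log A)) (Real.exp (Real.log A)) := by
  obtain ⟨C, K0, hC, hK0, hcost⟩ := Dist_cost hd hd3 hdd hC₀
  set B : ℝ := max (C / rt4 (θ / 40)) (330 * √ (40 / θ)) with hB
  have hr : 0 < rt4 (θ / 40) := rt4_pos (by positivity)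
  refine ⟨B, max 1 (40 * K0 / θ + 20 / θ), ?_, le_max_left _ _, ?_⟩
  · exact lt_of_lt_of_le (by positivity) (le_max_left _ _)
  intro f c hf hc I hI A hA hL hLI
  set Λ := Real.log A with hΛ
  have hΛ1 : 1 ≤ Λ := (le_max_left _ _).trans hL
  have hΛ2 : 40 * K0 / θ + 20 / θ ≤ Λ := (le_max_right _ _).trans hL
  have hθΛ : 40 * K0 + 20 ≤ θ * Λ := by
    have e : 40 * (K0 : ℝ) / θ + 20 / θ = (40 * K0 + 20) / θ := by ring
    rw [e, div_le_iff₀ hθ] at hΛ2
    linarith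
  set K : ℕ := ⌊θ * Λ / 20⌋₊ with hK
  have hK1 : (K : ℝ) ≤ θ * Λ / 20 := Nat.floor_le (by positivity)
  have hK2 : θ * Λ / 40 ≤ K := by
    have := Nat.lt_floor_add_one (θ * Λ / 20)
    rw [← hK] at this
    have h1 : (1 : ℝ) ≤ K0 := by exact_mod_cast hK0
    linarith
  have hKK0 : K0 ≤ K := by
    have : (K0 : ℝ) ≤ K := by linarith
    exact_mod_cast this
  have hK1N : 1 ≤ K := hK0.trans hKK0
  have hKR : (1 : ℝ) ≤ K := by exact_mod_cast hK1N
  have hKpos : (0 : ℝ) < K := by linarith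
  have hstep := hcost f c hf hc I hI A hA K hKK0 (by linarith)
  have hc0 := hc.1
  set X := AS (fun m => c m / |(m : ℝ)|) (A * Real.exp (-(0.7 * K))) A with hX
  have hsK : 0 < √ (K : ℝ) := Real.sqrt_pos.2 hKpos
  have hsK2 : √ (K : ℝ) ^ 2 = K := Real.sq_sqrt hKpos.le
  obtain ⟨k, hk, hkX⟩ : ∃ k ∈ Ioc K (2 * K), AS (GG A K c k) (A * Real.exp (-(0.7 * K))) A ≤ 330 / √ K * X := by
    apply Finset.exists_le_of_sum_le
    · exact ⟨K + 1, by rw [mem_Ioc]; omega⟩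
    · refine (GG_sum hK1N hc0 _ _).trans (le_of_eq ?_)
      rw [sum_const, Nat.card_Ioc, nsmul_eq_mul]
      have e : ((2 * K - K : ℕ) : ℝ) = K := by
        have : 2 * K - K = K := by omega
        rw [this]
      rw [e, ← hX]
      nth_rw 2 [← hsK2]
      field_simp
  have h1 := hstep k hk
  rw [mem_Ioc] at hk
  have hk1 : (K : ℝ) ≤ k := by exact_mod_cast hk.1.le
  have hk2 : (k : ℝ) ≤ 2 * K := by exact_mod_cast hk.2
  obtain ⟨hγ1, hγ2⟩ := log43
  have hlogA' : Real.log (A * 3 ^ k / 2 ^ (2 * k)) = Λ - k * (2 * Real.log 2 - Real.log 3) := by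
    rw [log_len hA]; push_cast; ring
  have hkγ1 : (k : ℝ) * 0.27 ≤ k * (2 * Real.log 2 - Real.log 3) := mul_le_mul_of_nonneg_left hγ1 (by linarith)
  have hkγ2 : (k : ℝ) * (2 * Real.log 2 - Real.log 3) ≤ k * 0.3 := mul_le_mul_of_nonneg_left hγ2 (by linarith)
  refine ⟨A * 3 ^ k / 2 ^ (2 * k), by positivity, ?_, ?_, ?_⟩
  · rw [hlogA']; linarith
  · rw [hlogA']; linarith
  · refine h1.trans ?_
    have hrK : C / rt4 K ≤ B / rt4 Λ := by
      have h2 : rt4 (θ / 40) * rt4 Λ ≤ rt4 K := by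
        rw [← rt4_mul (by positivity)]
        apply rt4_mono
        linarith
      have hrΛ : 0 < rt4 Λ := rt4_pos (by linarith)
      calc C / rt4 (K : ℝ) ≤ C / (rt4 (θ / 40) * rt4 Λ) := div_le_div_of_nonneg_left hC.le (by positivity) h2
        _ = (C / rt4 (θ / 40)) / rt4 Λ := by rw [div_div]
        _ ≤ B / rt4 Λ := div_le_div_of_nonneg_right (le_max_left _ _) hrΛ.le
    have hexpA : Real.exp Λ = A := Real.exp_log hA
    have hK07 : 0.7 * (K : ℝ) ≤ 0.035 * θ * Λ := by linarith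
    have ha1 : 1 < Real.exp ((1 - 0.035 * θ) * Λ) := by
      rw [Real.one_lt_exp_iff]
      have : 0 < 1 - 0.035 * θ := by linarith
      positivity
    have hlow : Real.exp ((1 - 0.035 * θ) * Λ) ≤ A * Real.exp (-(0.7 * K)) := by
      rw [← hexpA, ← Real.exp_add]
      apply Real.exp_le_exp.2
      linarith
    have hA1 : A * Real.exp (-(0.7 * K)) ≤ A := by
      have h2 : Real.exp (-(0.7 * (K : ℝ))) ≤ 1 := Real.exp_le_one_iff.2 (by linarith)
      exact mul_le_of_le_one_right hA.le h2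
    have hXW : 330 / √ K * X ≤ B * AS (wt c) (Real.exp ((1 - 0.035 * θ) * Λ)) (Real.exp Λ) := by
      have h2 := AS_wt hc0 (a := A * Real.exp (-(0.7 * K))) (b := A) (lt_of_lt_of_le ha1 hlow) le_rfl
      have h3 : AS (wt c) (A * Real.exp (-(0.7 * K))) A ≤ AS (wt c) (Real.exp ((1 - 0.035 * θ) * Λ)) (Real.exp Λ) := by
        rw [hexpA]
        exact AS_ext (wt_nonneg hc0) hlow hA1 le_rfl
      have hsΛ : √ Λ ≤ √ (40 / θ) * √ K := by
        rw [← Real.sqrt_mul (by positivity)]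
        apply Real.sqrt_le_sqrt
        rw [div_mul_eq_mul_div, le_div_iff₀ hθ]
        linarith
      set W := AS (wt c) (Real.exp ((1 - 0.035 * θ) * Λ)) (Real.exp Λ) with hW
      have hW0 : 0 ≤ W := AS_nonneg (wt_nonneg hc0) _ _
      have h4 : X ≤ √ (40 / θ) * √ K * W := by
        refine h2.trans ?_
        apply mul_le_mul hsΛ h3 (AS_nonneg (wt_nonneg hc0) _ _) (by positivity)
      calc 330 / √ K * X ≤ 330 / √ K * (√ (40 / θ) * √ K * W) := mul_le_mul_of_nonneg_left h4 (by positivity)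
        _ = 330 * √ (40 / θ) * W := by field_simp
        _ ≤ B * W := mul_le_mul_of_nonneg_right (le_max_right _ _) hW0
    linarith

end Pool.Agent.H82.BS
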