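import Pool.Graph.R_seed8.TH237.RT.Dens
import Pool.Graph.R_seed8.Y965.SI.Ene
import Pool.Agent.H82.BS.Lower

/-! The top, and the lower bound for the weighted cost of an invariant set. -/

set_option autoImplicit false

namespace Pool.Agent.H82.BS

open Pool.Agent.H320R2.PD Pool.Agent.H499R2.ND Pool.Agent.H499R2.CO Pool.Agent.Y965.SI Finset Filter Topology

theorem AS_G (s : ℤ) (S : Set ℤ) (Y : ℝ) : AS (ind s S) 1 Y = G {x | s * x ∈ S} Y := by
  classical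
  unfold AS G pos ind
  rw [Int.ceil_one, card_filter]
  push_cast
  apply sum_congr rfl
  intro x _
  rfl

theorem rate_side {s : ℤ} (hs : s = 1 ∨ s = -1) : ∃ C : ℝ, 0 < C ∧ ∀ S : Set ℤ, Inv 1 S → ∀ D : ℝ, HD s S D →
    ∀ Y : ℝ, 2 ≤ Y → |AS (ind s S) 1 Y - D * Y| ≤ C * Y / (Real.log Y) ^ (1 / 30 : ℝ) := by
  obtain ⟨C, hC, h⟩ := Pool.Agent.TH237.RT.density_rate (side_odd odd_one hs) (side_cop isCoprime_one_left hs)
  refine ⟨C, hC, fun S hS D hD Y hY => ?_⟩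
  obtain ⟨δ, -, -, h3, h4⟩ := h {x | s * x ∈ S} (side_inv odd_one hs hS)
  have e : D = δ := tendsto_nhds_unique hD h3
  rw [e, AS_G]
  exact h4 Y hY

theorem AS_const (D : ℝ) {a b : ℝ} (hab : a ≤ b) : AS (fun _ => D) a b = D * ((⌈b⌉ : ℝ) - ⌈a⌉) := by
  unfold AS
  rw [sum_const, nsmul_eq_mul, Int.card_Ico]
  have h1 := Int.ceil_mono hab
  have h2 : (((⌈b⌉ - ⌈a⌉).toNat : ℕ) : ℝ) = (⌈b⌉ : ℝ) - ⌈a⌉ := by
    have : (((⌈b⌉ - ⌈a⌉).toNat : ℕ) : ℤ) = ⌈b⌉ - ⌈a⌉ := Int.toNat_of_nonneg (by omega)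
    have h3 : ((((⌈b⌉ - ⌈a⌉).toNat : ℕ) : ℤ) : ℝ) = ((⌈b⌉ - ⌈a⌉ : ℤ) : ℝ) := by rw [this]
    push_cast at h3
    exact h3
  rw [h2]; ring

theorem AS_dev {s : ℤ} {S : Set ℤ} {D E : ℝ} (hD0 : 0 ≤ D) (hD1 : D ≤ 1) {a b : ℝ} (ha : 1 ≤ a) (hab : a ≤ b)
    (h1 : |AS (ind s S) 1 a - D * a| ≤ E) (h2 : |AS (ind s S) 1 b - D * b| ≤ E) :
    |AS (fun x => ind s S x - D) a b| ≤ 2 * E + 2 := by
  have e1 : AS (fun x => ind s S x - D) a b = AS (ind s S) a b - AS (fun _ => D) a b := by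
    unfold AS; rw [sum_sub_distrib]
  have e2 := AS_add (ind s S) ha hab
  rw [e1, AS_const D hab]
  have h3 := Int.ceil_lt_add_one a
  have h4 := Int.le_ceil a
  have h5 := Int.ceil_lt_add_one b
  have h6 := Int.le_ceil b
  have h7 : |D * ((⌈b⌉ : ℝ) - ⌈a⌉) - D * (b - a)| ≤ 2 := by
    rw [← mul_sub, abs_mul, abs_of_nonneg hD0]
    have : |(⌈b⌉ : ℝ) - ⌈a⌉ - (b - a)| ≤ 2 := by rw [abs_le]; constructor <;> linarith
    calc D * |(⌈b⌉ : ℝ) - ⌈a⌉ - (b - a)| ≤ 1 * 2 := mul_le_mul hD1 this (abs_nonneg _) (by norm_num)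
      _ = 2 := by norm_num
  rw [abs_le] at h1 h2 h7 ⊢
  constructor <;> linarith [h1.1, h1.2, h2.1, h2.2, h7.1, h7.2]

theorem top {s : ℤ} (hs : s = 1 ∨ s = -1) {e0 : ℝ} (he0 : 0 < e0) : ∃ ℓ0 : ℝ, ∀ S : Set ℤ, Inv 1 S → ∀ D : ℝ, HD s S D →
    0 ≤ D → D ≤ 1 → ∀ ℓ : ℝ, ℓ0 ≤ ℓ → ∀ A : ℝ, 0 < A → Real.exp (31 * ℓ) ≤ Real.log A →
    ∀ I : ℕ, 1 ≤ I → (I : ℝ) ≤ Real.exp ℓ → ∀ i < I, |uu (fun x => ind s S x - D) I A i| ≤ e0 / 8 := by
  obtain ⟨C, hC, hrate⟩ := rate_side hs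
  refine ⟨max 1 (30 * ((32 * C + 8) / (e0 / 8))), ?_⟩
  intro S hS D hD hD0 hD1 ℓ hℓ A hA hLA I hI hIe i hi
  have hℓ1 : 1 ≤ ℓ := (le_max_left _ _).trans hℓ
  have hℓ2 : 30 * ((32 * C + 8) / (e0 / 8)) ≤ ℓ := (le_max_right _ _).trans hℓ
  have hI0 : (0 : ℝ) < I := by exact_mod_cast hI
  set Λ := Real.log A with hΛ
  have hexp1 : 31 * ℓ + 1 ≤ Real.exp (31 * ℓ) := Real.add_one_le_exp _
  have hΛ32 : 32 ≤ Λ := by linarith
  have hAe : A = Real.exp Λ := (Real.exp_log hA).symm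
  have hA33 : 33 ≤ A := by
    have := Real.add_one_le_exp Λ
    rw [← hAe] at this
    linarith
  -- the error
  have hl2 := Real.log_two_lt_d9
  have hlogA2 : Λ / 2 ≤ Real.log (A / 2) := by
    rw [Real.log_div hA.ne' (by norm_num), ← hΛ]; linarith
  set R : ℝ := (Real.log (A / 2)) ^ (1 / 30 : ℝ) with hR
  have hR1 : 1 / 2 * Real.exp (31 / 30 * ℓ) ≤ R := by
    have h1 : (Λ / 2) ^ (1 / 30 : ℝ) ≤ R := Real.rpow_le_rpow (by linarith) hlogA2 (by norm_num)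
    have h2 : (Real.exp (31 * ℓ) / 2) ^ (1 / 30 : ℝ) ≤ (Λ / 2) ^ (1 / 30 : ℝ) :=
      Real.rpow_le_rpow (by positivity) (by linarith) (by norm_num)
    have h3 : (Real.exp (31 * ℓ) / 2) ^ (1 / 30 : ℝ) = Real.exp (31 / 30 * ℓ) / 2 ^ (1 / 30 : ℝ) := by
      rw [Real.div_rpow (Real.exp_pos _).le (by norm_num), ← Real.exp_mul]
      congr 2
      ring
    have h4 : (2 : ℝ) ^ (1 / 30 : ℝ) ≤ 2 := by
      have := Real.rpow_le_rpow_of_exponent_le (by norm_num : (1 : ℝ) ≤ 2) (by norm_num : (1 / 30 : ℝ) ≤ 1)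
      rwa [Real.rpow_one] at this
    have h5 : Real.exp (31 / 30 * ℓ) / 2 ≤ Real.exp (31 / 30 * ℓ) / 2 ^ (1 / 30 : ℝ) :=
      div_le_div_of_nonneg_left (Real.exp_pos _).le (by positivity) h4
    linarith
  have hRpos : 0 < R := lt_of_lt_of_le (by positivity) hR1
  set E : ℝ := C * (2 * A) / R with hE
  have hE0 : 0 ≤ E := by positivity
  have hEY : ∀ Y : ℝ, A / 2 ≤ Y → Y ≤ 2 * A → |AS (ind s S) 1 Y - D * Y| ≤ E := by
    intro Y h1 h2
    refine (hrate S hS D hD Y (by linarith)).trans ?_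
    rw [hE]
    have h3 : R ≤ (Real.log Y) ^ (1 / 30 : ℝ) :=
      Real.rpow_le_rpow (by linarith) (Real.log_le_log (by positivity) h1) (by norm_num)
    calc C * Y / (Real.log Y) ^ (1 / 30 : ℝ) ≤ C * Y / R := by
          apply div_le_div_of_nonneg_left _ hRpos h3
          have : 0 ≤ Y := by linarith
          positivity
      _ ≤ C * (2 * A) / R := by
          apply div_le_div_of_nonneg_right _ hRpos.le
          exact mul_le_mul_of_nonneg_left h2 hC.le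
  -- the cell
  set a := A * (I + (i : ℝ)) / I with ha
  set b := A * (I + ((i : ℝ) + 1)) / I with hb
  have hab : a ≤ b := cell_le hA.le i
  have hlen : b - a = A / I := cell_len hI i
  have hi0 : (0 : ℝ) ≤ i := Nat.cast_nonneg _
  have hi1 : (i : ℝ) + 1 ≤ I := by exact_mod_cast hi
  have haA : A ≤ a := by
    rw [ha, le_div_iff₀ hI0]
    apply mul_le_mul_of_nonneg_left _ hA.le
    linarith
  have hbA : b ≤ 2 * A := by
    rw [hb, div_le_iff₀ hI0]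
    have : A * (I + ((i : ℝ) + 1)) ≤ A * (2 * I) := mul_le_mul_of_nonneg_left (by linarith) hA.le
    linarith
  have hdev1 := AS_dev hD0 hD1 (E := E) (by linarith) hab (hEY a (by linarith) (by linarith)) (hEY b (by linarith) hbA)
  have hdev2 := AS_dev hD0 hD1 (E := E) (a := a / 2) (b := b / 2) (by linarith) (by linarith)
    (hEY (a / 2) (by linarith) (by linarith)) (hEY (b / 2) (by linarith) (by linarith))
  have hOS : |OS (fun x => ind s S x - D) a b| ≤ 4 * E + 4 := by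
    rw [OS_AS (f := fun x => ind s S x - D) (fun y => by rw [ind_two hs hS])]
    have := abs_sub (AS (fun x => ind s S x - D) a b) (AS (fun x => ind s S x - D) (a / 2) (b / 2))
    linarith
  have hdef : uu (fun x => ind s S x - D) I A i = OS (fun x => ind s S x - D) a b / ((b - a) / 2 + 1) := rfl
  have hden : 0 < (b - a) / 2 + 1 := by linarith
  rw [hdef, abs_div, abs_of_pos hden, div_le_iff₀ hden, hlen]
  refine hOS.trans ?_
  -- numerics
  have hexpR : 1 / R ≤ 2 * Real.exp (-(31 / 30 * ℓ)) := by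
    rw [div_le_iff₀ hRpos]
    have h1 := mul_le_mul_of_nonneg_left hR1 (show 0 ≤ 2 * Real.exp (-(31 / 30 * ℓ)) by positivity)
    have e : 2 * Real.exp (-(31 / 30 * ℓ)) * (1 / 2 * Real.exp (31 / 30 * ℓ)) = 1 := by
      have : Real.exp (-(31 / 30 * ℓ)) * Real.exp (31 / 30 * ℓ) = 1 := by rw [← Real.exp_add]; simp
      linarith
    rw [e] at h1
    exact h1
  have h1 : E ≤ 4 * C * A * Real.exp (-(31 / 30 * ℓ)) := by
    have e : E = C * (2 * A) * (1 / R) := by rw [hE]; ring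
    rw [e]
    have := mul_le_mul_of_nonneg_left hexpR (show 0 ≤ C * (2 * A) by positivity)
    linarith
  have h2 : (I : ℝ) * E ≤ 4 * C * A * Real.exp (-(ℓ / 30)) := by
    have h3 := mul_le_mul hIe h1 hE0 (Real.exp_pos _).le
    have e : Real.exp ℓ * (4 * C * A * Real.exp (-(31 / 30 * ℓ))) = 4 * C * A * Real.exp (-(ℓ / 30)) := by
      have : Real.exp ℓ * Real.exp (-(31 / 30 * ℓ)) = Real.exp (-(ℓ / 30)) := by rw [← Real.exp_add]; congr 1; ring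
      rw [← this]; ring
    rw [e] at h3
    exact h3
  have h3 : (I : ℝ) ≤ A * Real.exp (-(ℓ / 30)) := by
    refine hIe.trans ?_
    rw [hAe, ← Real.exp_add]
    apply Real.exp_le_exp.2
    linarith
  have h4 : Real.exp (-(ℓ / 30)) ≤ 30 / ℓ := by
    have := Pool.Agent.W41.FU.exp_neg_le_inv (x := ℓ / 30) (by positivity)
    rwa [one_div_div] at this
  have h5 : (32 * C + 8) * Real.exp (-(ℓ / 30)) ≤ e0 / 8 := by
    have h6 : (32 * C + 8) * Real.exp (-(ℓ / 30)) ≤ (32 * C + 8) * (30 / ℓ) := mul_le_mul_of_nonneg_left h4 (by positivity)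
    refine h6.trans ?_
    rw [mul_div_assoc', div_le_iff₀ (by linarith)]
    have e : 30 * ((32 * C + 8) / (e0 / 8)) = 30 * (32 * C + 8) / (e0 / 8) := by ring
    rw [e, div_le_iff₀ (by positivity)] at hℓ2
    linarith
  have h6 : (4 * E + 4) * (2 * I) ≤ e0 / 8 * A := by
    have h7 : (32 * C + 8) * Real.exp (-(ℓ / 30)) * A ≤ e0 / 8 * A := mul_le_mul_of_nonneg_right h5 hA.le
    linarith
  have h7 : 4 * E + 4 ≤ e0 / 8 * (A / I / 2) := by
    have e : e0 / 8 * (A / I / 2) = e0 / 8 * A / (2 * I) := by field_simp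
    rw [e, le_div_iff₀ (by positivity)]
    exact h6
  linarith

/-- THE LOWER BOUND for the weighted cost -/
theorem main {s : ℤ} (hs : s = 1 ∨ s = -1) {δ₁ C₀ : ℝ} (hδ : 0 < δ₁) (hδ1 : δ₁ ≤ 1 / 2) (hC₀ : 0 ≤ C₀) :
    ∃ c₁ ℓ0 : ℝ, 0 < c₁ ∧ 1 ≤ ℓ0 ∧ ∀ S : Set ℤ, Inv 1 S → ∀ D : ℝ, HD s S D → δ₁ ≤ D → D ≤ 1 - δ₁ → ∀ c : ℤ → ℝ,
      LC (fun x => ind s S x - D) c C₀ → ∀ ℓ : ℝ, ℓ0 ≤ ℓ →
      c₁ ≤ AS (wt c) (Real.exp (ℓ / 2)) (Real.exp (Real.exp (31 * ℓ))) := by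
  have hs1 : Odd s := by rcases hs with rfl | rfl <;> decide
  have hs3 : IsCoprime s 3 := by
    rcases hs with rfl | rfl
    · exact isCoprime_one_left
    · exact isCoprime_one_left.neg_left
  have hss : s * s = 1 := by rcases hs with rfl | rfl <;> norm_num
  obtain ⟨c₁, L1, hc₁, hL1, hlow⟩ := lower hs1 hs3 hss hC₀ (show 0 < δ₁ / 4 by positivity) (by linarith)
  obtain ⟨Y0, hY0⟩ := energy_ind hs hδ
  obtain ⟨ℓt, htop⟩ := top hs (show 0 < δ₁ / 4 by positivity)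
  refine ⟨c₁, max L1 (max (Real.log (max Y0 1)) ℓt), hc₁, hL1.trans (le_max_left _ _), ?_⟩
  intro S hS D hD hD1 hD2 c hc ℓ hℓ
  have h1 : L1 ≤ ℓ := (le_max_left _ _).trans hℓ
  have h2 : Real.log (max Y0 1) ≤ ℓ := ((le_max_left _ _).trans (le_max_right _ _)).trans hℓ
  have h3 : ℓt ≤ ℓ := ((le_max_right _ _).trans (le_max_right _ _)).trans hℓ
  have hf : InvF s (fun x => ind s S x - D) := by
    refine ⟨fun x => ?_, fun x => ?_⟩
    · have := ind_01 s S x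
      rw [abs_le]; constructor <;> linarith [this.1, this.2]
    · simp only
      rw [ind_inv hs hS]
  apply hlow _ c hf hc ℓ h1
  · intro Y hY hℓY
    apply hY0 S hS D hD hD1 hD2 D Y
    have h4 := (Real.log_le_log_iff (lt_of_lt_of_le one_pos (le_max_right Y0 1)) hY).1 (h2.trans hℓY)
    exact (le_max_left _ _).trans h4
  · exact Real.exp_pos _
  · rw [Real.log_exp]
    have := Real.add_one_le_exp (31 * ℓ)
    linarith
  · intro I hI hIe i hi
    exact htop S hS D hD (by linarith) (by linarith) ℓ h3 _ (Real.exp_pos _) (by rw [Real.log_exp]) I hI hIe i hi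

end Pool.Agent.H82.BS
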